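import Pool.Agent.Lib.H8AF.KF2

/-!
# Chunk K6 : `K` at the vertex `00000` is contained in `[K, K]`

PROOF.  If `S` is normalised by `Γ` then `down S` is normalised by `Γ` (`lift_Γ`).  Let `S0 = ⁅K, K⁆`
(normalised by `Γ`), `S (i+1) = down (S i)`.  For `k ∈ K`:
1. `[t, pair k 1] = pair [c a, k] 1 ∈ S0` (`t = pair (c a) (a c)`, `K_inl`), so `[c a, k] ∈ S1`.
2. with `pair k 1` for `k`: `c a (pair k 1) (c a)⁻¹ = pair 1 (d k d)`, so `pair k⁻¹ (d k d) ∈ S1`;
   conjugate by `a d a = pair b 1 ∈ Γ`: `pair (b k⁻¹ b) (d k d) ∈ S1`; quotient: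
   `pair (b k⁻¹ b k) 1 ∈ S1`, so `b k⁻¹ b k ∈ S2`, for all `k ∈ K`; i.e. `[b, k] ∈ S2` for all `k ∈ K`.
3. conjugate by `a`: `[a b a, k] ∈ S2` for all `k ∈ K`; `a b a = pair c a`, so with `pair k 1`:
   `[c, k] ∈ S3`.
4. same with `a c a = pair d a`: `[d, k] ∈ S4`.
5. `[a d a, t] ∈ S4`, and `[t, a d a] = pair (c t c) 1` (`t_comm`), so `c t c ∈ S5`; `S5` is normalised by
   `Γ`, hence `t ∈ S5`, hence `K ≤ S5`.
(`[x, y] = x y x⁻¹ y⁻¹`.)
-/

namespace H8AF

theorem NormBy_down_Γ {S : Subgroup T} (h : NormBy Γ S) : NormBy Γ (down S) := by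
  intro g hg x hx
  obtain ⟨h', -, hgh⟩ := lift_Γ g hg
  rw [mem_down] at hx ⊢
  have := h _ hgh _ hx
  rw [pair_inv, pair_mul, pair_mul] at this
  simpa using this

theorem K6_norm0 : NormBy Γ ⁅K, K⁆ := by
  intro g hg x hx
  rw [Subgroup.commutator_def] at hx ⊢
  induction hx using Subgroup.closure_induction with
  | mem x hx =>
    obtain ⟨k, hk, l, hl, rfl⟩ := hx
    refine Subgroup.subset_closure ⟨g * k * g⁻¹, NormBy_Γ_K g hg k hk, g * l * g⁻¹,
      NormBy_Γ_K g hg l hl, ?_⟩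
    simp only [commutatorElement_def]
    group
  | one => simp
  | mul x y _ _ hx hy =>
    have := Subgroup.mul_mem _ hx hy
    have e : g * (x * y) * g⁻¹ = g * x * g⁻¹ * (g * y * g⁻¹) := by group
    rw [e]; exact this
  | inv x _ hx =>
    have := Subgroup.inv_mem _ hx
    have e : g * x⁻¹ * g⁻¹ = (g * x * g⁻¹)⁻¹ := by group
    rw [e]; exact this

theorem K6_t_pair : t = pair (c * a) (a * c) := by
  have h1 : a * b * a = pair c a := by rw [b_eq, a_pair_a]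
  rw [t, h1, b_eq, pair_mul]

theorem K6_aba : a * b * a = pair c a := by rw [b_eq, a_pair_a]
theorem K6_aca : a * c * a = pair d a := by
  have := a_pair_a a d
  rw [← c_eq] at this; exact this
theorem K6_ada : a * d * a = pair b 1 := by
  have := a_pair_a 1 b
  rw [← d_eq] at this; exact this

theorem K6_step {S : Subgroup T} (hS : NormBy Γ S) {x y : T} (hxy : a * x * a = pair y a)
    (h : ∀ k ∈ K, x * k * x⁻¹ * k⁻¹ ∈ S) : ∀ k ∈ K, y * k * y⁻¹ * k⁻¹ ∈ down S := by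
  intro k hk
  have h1 : a * pair k 1 * a⁻¹ ∈ K := NormBy_Γ_K a a_mem _ (K_inl k hk)
  have h2 := hS a a_mem _ (h _ h1)
  have e : a * (x * (a * pair k 1 * a⁻¹) * x⁻¹ * (a * pair k 1 * a⁻¹)⁻¹) * a⁻¹
      = (a * x * a⁻¹⁻¹) * pair k 1 * (a * x * a⁻¹⁻¹)⁻¹ * (pair k 1)⁻¹ *
        (pair k 1 * (a * a)⁻¹ * (pair k 1)⁻¹ * 1) := by
    simp only [a_inv, aa, inv_one, mul_one, mul_inv_cancel, mul_inv_rev]
    simp only [mul_assoc, aa, mul_one]
  rw [e] at h2
  simp only [a_inv, aa, inv_one, mul_one, mul_inv_cancel] at h2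
  rw [hxy, pair_inv, pair_inv, pair_mul, pair_mul, pair_mul] at h2
  rw [mem_down]
  simpa using h2

theorem K6 : K ≤ downs 5 ⁅K, K⁆ := by
  have n0 := K6_norm0
  have n1 := NormBy_down_Γ n0
  have n2 := NormBy_down_Γ n1
  have n3 := NormBy_down_Γ n2
  have n4 := NormBy_down_Γ n3
  have n5 := NormBy_down_Γ n4
  have s1 : ∀ k ∈ K, (c * a) * k * (c * a)⁻¹ * k⁻¹ ∈ down ⁅K, K⁆ := by
    intro k hk
    have h := Subgroup.commutator_mem_commutator t_mem (K_inl k hk)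
    rw [commutatorElement_def, K6_t_pair, pair_inv, pair_inv, pair_mul, pair_mul, pair_mul] at h
    have e : a * c * 1 * (a * c)⁻¹ * 1⁻¹ = 1 := by group
    rw [e] at h
    exact mem_down.2 h
  have s2 : ∀ k ∈ K, b * k * b⁻¹ * k⁻¹ ∈ down (down ⁅K, K⁆) := by
    intro k hk
    have hk' := Subgroup.inv_mem _ hk
    have h1 := s1 _ (K_inl _ hk')
    have e1 : (c * a) * pair k⁻¹ 1 * (c * a)⁻¹ * (pair k⁻¹ 1)⁻¹ = pair k (d * k⁻¹ * d) := by
      have e2 : (c * a) * pair k⁻¹ 1 * (c * a)⁻¹ = c * (a * pair k⁻¹ 1 * a) * c := by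
        rw [mul_inv_rev, a_inv, c_inv]; simp only [mul_assoc]
      rw [e2, a_pair_a, c_eq, pair_mul, pair_mul, pair_inv, pair_mul]
      simp
    rw [e1] at h1
    have hb : pair b 1 ∈ Γ := by
      rw [← K6_ada]
      exact Subgroup.mul_mem _ (Subgroup.mul_mem _ a_mem d_mem) a_mem
    have h2 := n1 _ hb _ h1
    have h3 := Subgroup.mul_mem _ h2 (Subgroup.inv_mem _ h1)
    rw [mem_down]
    have e3 : pair b 1 * pair k (d * k⁻¹ * d) * (pair b 1)⁻¹ * (pair k (d * k⁻¹ * d))⁻¹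
        = pair (b * k * b⁻¹ * k⁻¹) 1 := by
      rw [pair_inv, pair_inv, pair_mul, pair_mul, pair_mul]
      congr 1
      group
    rw [e3] at h3
    exact h3
  have s3 := K6_step n2 K6_aba s2
  have s4 := K6_step n3 K6_aca s3
  have s5 : t ∈ down (down (down (down (down ⁅K, K⁆)))) := by
    have h1 : a * t * a⁻¹ ∈ K := NormBy_Γ_K a a_mem _ t_mem
    have h2 := n4 a a_mem _ (s4 _ h1)
    have e : a * (d * (a * t * a⁻¹) * d⁻¹ * (a * t * a⁻¹)⁻¹) * a⁻¹
        = (a * d * a) * t * (a * d * a)⁻¹ * t⁻¹ := by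
      simp only [mul_inv_rev, a_inv, d_inv, mul_assoc, aa, mul_one]
    rw [e] at h2
    have h3 := Subgroup.inv_mem _ h2
    have e4 : ((a * d * a) * t * (a * d * a)⁻¹ * t⁻¹)⁻¹
        = t * (a * d * a) * t⁻¹ * (a * d * a)⁻¹ := by group
    rw [e4, t_comm] at h3
    have h4 : c * t * c ∈ down (down (down (down (down ⁅K, K⁆)))) := mem_down.2 h3
    have h5 := n5 c c_mem _ h4
    have e5 : c * (c * t * c) * c⁻¹ = t := by
      have hc : ∀ z : T, c * (c * z) = z := fun z => by rw [← mul_assoc, cc, one_mul]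
      simp only [c_inv, mul_assoc, cc, mul_one, hc]
    rw [e5] at h5
    exact h5
  change K ≤ down (down (down (down (down ⁅K, K⁆))))
  rw [K, Subgroup.closure_le]
  rintro _ ⟨g, hg, rfl⟩
  exact n5 g hg _ s5

end H8AF
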