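import Pool.Agent.Lib.H8AF.K5
import Pool.Agent.Lib.H8AF.K6

/-!
# Chunk CA (this file) of the chunks CA, CB, CC, CD, CE : the congruence subgroup property

`Fam D`: see `Defs.lean`.  `KD (D n)` is the normal closure of `K` in `D n`; `C n = ⁅KD (D n), KD (D n)⁆`.

CA (`NormBy_down`, `KD_le_down`, `KD_le_downs`, `KD_comm`):
* if `S` is normalised by `D n` then `down S` is normalised by `D (n+1)` (`Fam.lift`).
* `K ≤ down K ≤ down (KD (D n))`, so `KD (D (n+1)) ≤ down (KD (D n))`; iterate.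
* `K ≤ downs 6 ⁅K, K⁆` (`K6` and `K_inl`; `downs` and `down` commute) `≤ downs 6 (C n)`, normalised by
  `D (n+6)`, so `KD (D (n+6)) ≤ downs 6 (C n)`.
CB (`mem_KD`): `3 ∣ n`, `g ∈ D n`, `Eqn 3 g 1` imply `g ∈ KD (D n)`: `g = γ k` (`Fam.dense`), `k` is
  approximated by `k' ∈ K` at level 3 (every element of `KD (D n)` is: closure induction, `Fam.appr`,
  `NormBy_Γ_K`), so `Eqn 3 (γ k') 1`, `γ k' ∈ K` by `K5`, `γ ∈ K`.
CC (`box`): `Box j X` = the automorphisms `(x_v)_{|v| = j}` with all `x_v ∈ X`.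
* `Box_le`: `X ≤ downs j S`, `S` normalised by `D n` imply `Box j X ≤ S` (induction on `j`,
  `pair g h = pair g 1 * (a * pair h 1 * a)`).
* `mem_Box`: `g ∈ D n`, `Eqn (j + m) g 1` imply `g ∈ Box j {x ∈ D (n+j) | Eqn m x 1}` (induction on `j`,
  `Fam.sec`, `not_Eqn_a_pair`, `Eqn_pair`).
CD (`comm_mem`): let `N` be normalised by `D 0`, `N ≤ D 0`, `g ∈ N`, `g ≠ 1`.  Then for some `l` with `3 ∣ l`:
  `C l ≤ downs l N`.  Choose a word `v` with `g v ≠ v`; extend it to a word of length `l` divisible by 3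
  (then still `g v ≠ v`, by `pre`).  `atv v h`: the automorphism that acts as `h` below `v` and
  trivially elsewhere (`atv [] h = h`, `atv (false :: v) h = pair (atv v h) 1`,
  `atv (true :: v) h = pair 1 (atv v h)`).  For `S` normalised by `D n` (which contains `a`):
  `atv v h ∈ S ↔ h ∈ downs |v| S` (induction on `v`).  For `x, y ∈ KD (D l)`: `X = atv v x`, `Y = atv v y` are in
  `D 0` (`KD_le_downs`); `X' = g X⁻¹ g⁻¹` is supported below `g v`, so it commutes with `Y`
  (`Equiv.Perm.Disjoint.commute` or directly).  `c1 = X g X⁻¹ g⁻¹ = X X' ∈ N` and `c1 Y c1⁻¹ Y⁻¹ ∈ N` and it is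
  `X Y X⁻¹ Y⁻¹ = atv v [x, y]`.  So `[x, y] ∈ downs l N`.
CE (`csp`): with `l` from CD take `n = l + 9`.  `δ ∈ D 0`, `Eqn (l + (6 + 3)) δ 1`.  `mem_Box`:
  `δ ∈ Box l {x ∈ D l | Eqn (6+3) x 1}`; each such `x` is in `Box 6 {y ∈ D (l+6) | Eqn 3 y 1}`
  `⊆ Box 6 (KD (D (l+6)))` (CB) `≤ C l` (CA `KD_comm`, `Box_le`) `≤ downs l N`; `Box_le` again: `δ ∈ N`.
-/

namespace H8AF

variable {D : ℕ → Subgroup T}

theorem NormBy_KD (E : Subgroup T) : NormBy E (KD E) := by
  intro g hg x hx
  induction hx using Subgroup.closure_induction with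
  | mem x hx =>
    obtain ⟨e, he, k, hk, rfl⟩ := hx
    refine Subgroup.subset_closure ⟨g * e, E.mul_mem hg he, k, hk, ?_⟩
    group
  | one =>
    rw [mul_one, mul_inv_cancel]
    exact Subgroup.one_mem _
  | mul x y _ _ hx hy =>
    have : g * (x * y) * g⁻¹ = (g * x * g⁻¹) * (g * y * g⁻¹) := by group
    rw [this]
    exact Subgroup.mul_mem _ hx hy
  | inv x _ hx =>
    have : g * x⁻¹ * g⁻¹ = (g * x * g⁻¹)⁻¹ := by group
    rw [this]
    exact Subgroup.inv_mem _ hx

open scoped commutatorElement in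
theorem NormBy_comm {E S : Subgroup T} (h : NormBy E S) : NormBy E ⁅S, S⁆ := by
  intro g hg x hx
  rw [Subgroup.commutator_def] at hx
  induction hx using Subgroup.closure_induction with
  | mem x hx =>
    obtain ⟨s, hs, s', hs', rfl⟩ := hx
    have : g * ⁅s, s'⁆ * g⁻¹ = ⁅g * s * g⁻¹, g * s' * g⁻¹⁆ := by
      simp only [commutatorElement_def]
      group
    rw [this]
    exact Subgroup.commutator_mem_commutator (h g hg s hs) (h g hg s' hs')
  | one =>
    rw [mul_one, mul_inv_cancel]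
    exact Subgroup.one_mem _
  | mul x y _ _ hx hy =>
    have : g * (x * y) * g⁻¹ = (g * x * g⁻¹) * (g * y * g⁻¹) := by group
    rw [this]
    exact Subgroup.mul_mem _ hx hy
  | inv x _ hx =>
    have : g * x⁻¹ * g⁻¹ = (g * x * g⁻¹)⁻¹ := by group
    rw [this]
    exact Subgroup.inv_mem _ hx

theorem K_le_KD {E : Subgroup T} : K ≤ KD E := by
  intro k hk
  exact Subgroup.subset_closure ⟨1, E.one_mem, k, hk, by simp⟩

theorem CA_KD_le {E S : Subgroup T} (h : NormBy E S) (hK : K ≤ S) : KD E ≤ S := by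
  refine (Subgroup.closure_le _).mpr ?_
  rintro x ⟨g, hg, k, hk, rfl⟩
  exact h g hg k (hK hk)

theorem NormBy_down (h : Fam D) {n : ℕ} {S : Subgroup T} (hS : NormBy (D n) S) :
    NormBy (D (n + 1)) (down S) := by
  intro g hg x hx
  obtain ⟨h', hh'⟩ := h.lift n g hg
  rw [mem_down] at hx ⊢
  have h1 := hS _ hh' _ hx
  rwa [pair_inv, pair_mul, pair_mul, mul_one, mul_inv_cancel] at h1

theorem downs_succ (n : ℕ) (S : Subgroup T) : downs (n + 1) S = down (downs n S) := by
  induction n generalizing S with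
  | zero => rfl
  | succ n ih =>
    change downs (n + 1) (down S) = down (downs n (down S))
    exact ih (down S)

theorem CA_down_mono {S S' : Subgroup T} (h : S ≤ S') : down S ≤ down S' :=
  Subgroup.comap_mono h

theorem downs_mono {n : ℕ} {S S' : Subgroup T} (h : S ≤ S') : downs n S ≤ downs n S' := by
  induction n with
  | zero => exact h
  | succ n ih =>
    rw [downs_succ, downs_succ]
    exact CA_down_mono ih

theorem CA_K_le_down : K ≤ down K := fun k hk => mem_down.mpr (K_inl k hk)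

theorem KD_le_down (h : Fam D) (n : ℕ) : KD (D (n + 1)) ≤ down (KD (D n)) :=
  CA_KD_le (NormBy_down h (NormBy_KD _)) (CA_K_le_down.trans (CA_down_mono K_le_KD))

theorem KD_le_downs (h : Fam D) (n j : ℕ) : KD (D (n + j)) ≤ downs j (KD (D n)) := by
  induction j with
  | zero => exact le_refl _
  | succ j ih =>
    rw [downs_succ]
    exact (KD_le_down h (n + j)).trans (CA_down_mono ih)

theorem CA_NormBy_downs (h : Fam D) {n : ℕ} (j : ℕ) {S : Subgroup T} (hS : NormBy (D n) S) :
    NormBy (D (n + j)) (downs j S) := by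
  induction j with
  | zero => exact hS
  | succ j ih =>
    rw [downs_succ]
    exact NormBy_down h ih

theorem KD_comm (h : Fam D) (n : ℕ) :
    KD (D (n + 6)) ≤ downs 6 ⁅KD (D n), KD (D n)⁆ := by
  refine CA_KD_le (CA_NormBy_downs h 6 (NormBy_comm (NormBy_KD _))) ?_
  refine le_trans ?_ (downs_mono (Subgroup.commutator_mono K_le_KD K_le_KD))
  rw [downs_succ]
  exact CA_K_le_down.trans (CA_down_mono K6)

end H8AF
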