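import Pool.Agent.Lib.H8AF.CA

/-!
# Chunk CB (this file) of the chunks CA, CB, CC, CD, CE : the congruence subgroup property

`Fam D`: see `Defs.lean`.  `KD (D n)` is the normal closure of `K` in `D n`; `C n = ⁅KD (D n), KD (D n)⁆`.

CA (`NormBy_down`, `KD_le_down`, `KD_le_downs`, `KD_comm`):
* if `S` is normalised by `D n` then `down S` is normalised by `D (n+1)` (`Fam.lift`).
* `K ≤ down K ≤ down (KD (D n))`, so `KD (D (n+1)) ≤ down (KD (D n))`; iterate.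
* `K ≤ downs 6 ⁅K, K⁆` (`K6` and `K_inl`; `downs` and `down` commute) `≤ downs 6 (C n)`, normalised by
  `D (n+6)`, so `KD (D (n+6)) ≤ downs 6 (C n)`.
CB (`mem_KD`): `3 ∣ n`, `g ∈ D n`, `Eqn 3 g 1` imply `g ∈ KD (D n)`: `g = γ k` (`Fam.dense`), `k` is
  approximated by `k' ∈ K` at level 3 (every element of `KD (D n)` is: closure induction, `Fam.appr`,
  `NormBy_Γ_K`), so `Eqn 3 (γ k') 1`, `γ k' ∈ K` by `K5`, `γ ∈ K`.
CC (`box`): `Box j X` = the automorphisms `(x_v)_{|v| = j}` with all `x_v ∈ X`.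
* `Box_le`: `X ≤ downs j S`, `S` normalised by `D n` imply `Box j X ≤ S` (induction on `j`,
  `pair g h = pair g 1 * (a * pair h 1 * a)`).
* `mem_Box`: `g ∈ D n`, `Eqn (j + m) g 1` imply `g ∈ Box j {x ∈ D (n+j) | Eqn m x 1}` (induction on `j`,
  `Fam.sec`, `not_Eqn_a_pair`, `Eqn_pair`).
CD (`comm_mem`): let `N` be normalised by `D 0`, `N ≤ D 0`, `g ∈ N`, `g ≠ 1`.  Then for some `l` with `3 ∣ l`:
  `C l ≤ downs l N`.  Choose a word `v` with `g v ≠ v`; extend it to a word of length `l` divisible by 3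
  (then still `g v ≠ v`, by `pre`).  `atv v h`: the automorphism that acts as `h` below `v` and
  trivially elsewhere (`atv [] h = h`, `atv (false :: v) h = pair (atv v h) 1`,
  `atv (true :: v) h = pair 1 (atv v h)`).  For `S` normalised by `D n` (which contains `a`):
  `atv v h ∈ S ↔ h ∈ downs |v| S` (induction on `v`).  For `x, y ∈ KD (D l)`: `X = atv v x`, `Y = atv v y` are in
  `D 0` (`KD_le_downs`); `X' = g X⁻¹ g⁻¹` is supported below `g v`, so it commutes with `Y`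
  (`Equiv.Perm.Disjoint.commute` or directly).  `c1 = X g X⁻¹ g⁻¹ = X X' ∈ N` and `c1 Y c1⁻¹ Y⁻¹ ∈ N` and it is
  `X Y X⁻¹ Y⁻¹ = atv v [x, y]`.  So `[x, y] ∈ downs l N`.
CE (`csp`): with `l` from CD take `n = l + 9`.  `δ ∈ D 0`, `Eqn (l + (6 + 3)) δ 1`.  `mem_Box`:
  `δ ∈ Box l {x ∈ D l | Eqn (6+3) x 1}`; each such `x` is in `Box 6 {y ∈ D (l+6) | Eqn 3 y 1}`
  `⊆ Box 6 (KD (D (l+6)))` (CB) `≤ C l` (CA `KD_comm`, `Box_le`) `≤ downs l N`; `Box_le` again: `δ ∈ N`.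
-/

namespace H8AF

variable {D : ℕ → Subgroup T}

theorem CB_appr (h : Fam D) {n : ℕ} {x : T} (hx : x ∈ KD (D n)) : ∃ k ∈ K, Eqn 3 x k := by
  induction hx using Subgroup.closure_induction with
  | mem x hx =>
    obtain ⟨e, he, k, hk, rfl⟩ := hx
    obtain ⟨γ, hγ, h1⟩ := h.appr n e he 3
    exact ⟨γ * k * γ⁻¹, NormBy_Γ_K γ hγ k hk, (h1.mul Eqn.rfl).mul h1.inv⟩
  | one => exact ⟨1, K.one_mem, Eqn.rfl⟩
  | mul x y _ _ hx hy =>
    obtain ⟨k, hk, h1⟩ := hx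
    obtain ⟨k', hk', h2⟩ := hy
    exact ⟨k * k', K.mul_mem hk hk', h1.mul h2⟩
  | inv x _ hx =>
    obtain ⟨k, hk, h1⟩ := hx
    exact ⟨k⁻¹, K.inv_mem hk, h1.inv⟩

theorem mem_KD (h : Fam D) {n : ℕ} (hn : 3 ∣ n) {g : T} (hg : g ∈ D n) (h1 : Eqn 3 g 1) :
    g ∈ KD (D n) := by
  obtain ⟨γ, hγ, k, hk, rfl⟩ := h.dense n hn g hg
  obtain ⟨k', hk', h2⟩ := CB_appr h hk
  have h3 : Eqn 3 (γ * k') 1 := ((Eqn.rfl (f := γ)).mul h2).symm.trans h1
  have h4 : γ * k' ∈ K := K5 _ (Γ.mul_mem hγ (K_le_Γ hk')) h3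
  have h5 : γ ∈ K := by
    have := K.mul_mem h4 (K.inv_mem hk')
    rwa [mul_assoc, mul_inv_cancel, mul_one] at this
  exact Subgroup.mul_mem _ (K_le_KD h5) hk

end H8AF
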