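import Pool.Agent.Lib.H8AF.CA

/-!
# Chunk CC (this file) of the chunks CA, CB, CC, CD, CE : the congruence subgroup property

`Fam D`: see `Defs.lean`.  `KD (D n)` is the normal closure of `K` in `D n`; `C n = ⁅KD (D n), KD (D n)⁆`.

CA (`NormBy_down`, `KD_le_down`, `KD_le_downs`, `KD_comm`):
* if `S` is normalised by `D n` then `down S` is normalised by `D (n+1)` (`Fam.lift`).
* `K ≤ down K ≤ down (KD (D n))`, so `KD (D (n+1)) ≤ down (KD (D n))`; iterate.
* `K ≤ downs 6 ⁅K, K⁆` (`K6` and `K_inl`; `downs` and `down` commute) `≤ downs 6 (C n)`, normalised by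
  `D (n+6)`, so `KD (D (n+6)) ≤ downs 6 (C n)`.
CB (`mem_KD`): `3 ∣ n`, `g ∈ D n`, `Eqn 3 g 1` imply `g ∈ KD (D n)`: `g = γ k` (`Fam.dense`), `k` is
  approximated by `k' ∈ K` at level 3 (every element of `KD (D n)` is: closure induction, `Fam.appr`,
  `NormBy_Γ_K`), so `Eqn 3 (γ k') 1`, `γ k' ∈ K` by `K5`, `γ ∈ K`.
CC (`box`): `Box j X` = the automorphisms `(x_v)_{|v| = j}` with all `x_v ∈ X`.
* `Box_le`: `X ≤ downs j S`, `S` normalised by `D n` imply `Box j X ≤ S` (induction on `j`,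
  `pair g h = pair g 1 * (a * pair h 1 * a)`).
* `mem_Box`: `g ∈ D n`, `Eqn (j + m) g 1` imply `g ∈ Box j {x ∈ D (n+j) | Eqn m x 1}` (induction on `j`,
  `Fam.sec`, `not_Eqn_a_pair`, `Eqn_pair`).
CD (`comm_mem`): let `N` be normalised by `D 0`, `N ≤ D 0`, `g ∈ N`, `g ≠ 1`.  Then for some `l` with `3 ∣ l`:
  `C l ≤ downs l N`.  Choose a word `v` with `g v ≠ v`; extend it to a word of length `l` divisible by 3
  (then still `g v ≠ v`, by `pre`).  `atv v h`: the automorphism that acts as `h` below `v` and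
  trivially elsewhere (`atv [] h = h`, `atv (false :: v) h = pair (atv v h) 1`,
  `atv (true :: v) h = pair 1 (atv v h)`).  For `S` normalised by `D n` (which contains `a`):
  `atv v h ∈ S ↔ h ∈ downs |v| S` (induction on `v`).  For `x, y ∈ KD (D l)`: `X = atv v x`, `Y = atv v y` are in
  `D 0` (`KD_le_downs`); `X' = g X⁻¹ g⁻¹` is supported below `g v`, so it commutes with `Y`
  (`Equiv.Perm.Disjoint.commute` or directly).  `c1 = X g X⁻¹ g⁻¹ = X X' ∈ N` and `c1 Y c1⁻¹ Y⁻¹ ∈ N` and it is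
  `X Y X⁻¹ Y⁻¹ = atv v [x, y]`.  So `[x, y] ∈ downs l N`.
CE (`csp`): with `l` from CD take `n = l + 9`.  `δ ∈ D 0`, `Eqn (l + (6 + 3)) δ 1`.  `mem_Box`:
  `δ ∈ Box l {x ∈ D l | Eqn (6+3) x 1}`; each such `x` is in `Box 6 {y ∈ D (l+6) | Eqn 3 y 1}`
  `⊆ Box 6 (KD (D (l+6)))` (CB) `≤ C l` (CA `KD_comm`, `Box_le`) `≤ downs l N`; `Box_le` again: `δ ∈ N`.
-/

namespace H8AF

variable {D : ℕ → Subgroup T}

/-- `Box j X` : all `(x_v)_{|v| = j}` with `x_v ∈ X` -/
def Box : ℕ → Set T → Set T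
  | 0, X => X
  | j + 1, X => {g | ∃ u ∈ Box j X, ∃ v ∈ Box j X, g = pair u v}

theorem Box_le (h : Fam D) {n j : ℕ} {S : Subgroup T} (hS : NormBy (D n) S) {X : Set T}
    (hX : ∀ x ∈ X, x ∈ downs j S) : ∀ g ∈ Box j X, g ∈ S := by
  induction j generalizing n S with
  | zero => exact hX
  | succ j ih =>
    rintro g ⟨u, hu, v, hv, rfl⟩
    have h1 := ih (NormBy_down h hS) hX
    have hu' := mem_down.mp (h1 u hu)
    have hv' := mem_down.mp (h1 v hv)
    have h2 := hS a (h.gam n a_mem) _ hv'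
    rw [a_inv, a_pair_a] at h2
    have h3 := S.mul_mem hu' h2
    rwa [pair_mul, mul_one, one_mul] at h3

theorem Box_mono {j : ℕ} {X Y : Set T} (h : X ⊆ Y) : Box j X ⊆ Box j Y := by
  induction j with
  | zero => exact h
  | succ j ih =>
    rintro g ⟨u, hu, v, hv, rfl⟩
    exact ⟨u, ih hu, v, ih hv, rfl⟩

theorem mem_Box (h : Fam D) {n : ℕ} (j m : ℕ) {g : T} (hg : g ∈ D n) (h1 : Eqn (j + m) g 1) :
    g ∈ Box j {x | x ∈ D (n + j) ∧ Eqn m x 1} := by
  induction j generalizing n g with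
  | zero =>
    rw [Nat.zero_add] at h1
    exact ⟨hg, h1⟩
  | succ j ih =>
    have e : j + 1 + m = (j + m) + 1 := by omega
    rw [e] at h1
    obtain ⟨u, hu, v, hv, h2 | h2⟩ := h.sec n g hg
    · subst h2
      rw [← pair_one, Eqn_pair] at h1
      have h3 := ih hu h1.1
      have h4 := ih hv h1.2
      have e2 : n + 1 + j = n + (j + 1) := by omega
      rw [e2] at h3 h4
      exact ⟨u, h3, v, h4, rfl⟩
    · subst h2
      exact absurd h1 (not_Eqn_a_pair u v)

end H8AF
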