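import Pool.Agent.Lib.H8AF.CA

/-!
# Chunk CD (this file) of the chunks CA, CB, CC, CD, CE : the congruence subgroup property

`Fam D`: see `Defs.lean`.  `KD (D n)` is the normal closure of `K` in `D n`; `C n = ⁅KD (D n), KD (D n)⁆`.

CA (`NormBy_down`, `KD_le_down`, `KD_le_downs`, `KD_comm`):
* if `S` is normalised by `D n` then `down S` is normalised by `D (n+1)` (`Fam.lift`).
* `K ≤ down K ≤ down (KD (D n))`, so `KD (D (n+1)) ≤ down (KD (D n))`; iterate.
* `K ≤ downs 6 ⁅K, K⁆` (`K6` and `K_inl`; `downs` and `down` commute) `≤ downs 6 (C n)`, normalised by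
  `D (n+6)`, so `KD (D (n+6)) ≤ downs 6 (C n)`.
CB (`mem_KD`): `3 ∣ n`, `g ∈ D n`, `Eqn 3 g 1` imply `g ∈ KD (D n)`: `g = γ k` (`Fam.dense`), `k` is
  approximated by `k' ∈ K` at level 3 (every element of `KD (D n)` is: closure induction, `Fam.appr`,
  `NormBy_Γ_K`), so `Eqn 3 (γ k') 1`, `γ k' ∈ K` by `K5`, `γ ∈ K`.
CC (`box`): `Box j X` = the automorphisms `(x_v)_{|v| = j}` with all `x_v ∈ X`.
* `Box_le`: `X ≤ downs j S`, `S` normalised by `D n` imply `Box j X ≤ S` (induction on `j`,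
  `pair g h = pair g 1 * (a * pair h 1 * a)`).
* `mem_Box`: `g ∈ D n`, `Eqn (j + m) g 1` imply `g ∈ Box j {x ∈ D (n+j) | Eqn m x 1}` (induction on `j`,
  `Fam.sec`, `not_Eqn_a_pair`, `Eqn_pair`).
CD (`comm_mem`): let `N` be normalised by `D 0`, `N ≤ D 0`, `g ∈ N`, `g ≠ 1`.  Then for some `l` with `3 ∣ l`:
  `C l ≤ downs l N`.  Choose a word `v` with `g v ≠ v`; extend it to a word of length `l` divisible by 3
  (then still `g v ≠ v`, by `pre`).  `atv v h`: the automorphism that acts as `h` below `v` and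
  trivially elsewhere (`atv [] h = h`, `atv (false :: v) h = pair (atv v h) 1`,
  `atv (true :: v) h = pair 1 (atv v h)`).  For `S` normalised by `D n` (which contains `a`):
  `atv v h ∈ S ↔ h ∈ downs |v| S` (induction on `v`).  For `x, y ∈ KD (D l)`: `X = atv v x`, `Y = atv v y` are in
  `D 0` (`KD_le_downs`); `X' = g X⁻¹ g⁻¹` is supported below `g v`, so it commutes with `Y`
  (`Equiv.Perm.Disjoint.commute` or directly).  `c1 = X g X⁻¹ g⁻¹ = X X' ∈ N` and `c1 Y c1⁻¹ Y⁻¹ ∈ N` and it is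
  `X Y X⁻¹ Y⁻¹ = atv v [x, y]`.  So `[x, y] ∈ downs l N`.
CE (`csp`): with `l` from CD take `n = l + 9`.  `δ ∈ D 0`, `Eqn (l + (6 + 3)) δ 1`.  `mem_Box`:
  `δ ∈ Box l {x ∈ D l | Eqn (6+3) x 1}`; each such `x` is in `Box 6 {y ∈ D (l+6) | Eqn 3 y 1}`
  `⊆ Box 6 (KD (D (l+6)))` (CB) `≤ C l` (CA `KD_comm`, `Box_le`) `≤ downs l N`; `Box_le` again: `δ ∈ N`.
-/

namespace H8AF

variable {D : ℕ → Subgroup T}

/-- the automorphism that acts as `h` below `v` and trivially elsewhere -/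
def cd_atv : List Bool → T → T
  | [], h => h
  | false :: v, h => pair (cd_atv v h) 1
  | true :: v, h => pair 1 (cd_atv v h)

theorem cd_atv_mul (v : List Bool) (h k : T) : cd_atv v (h * k) = cd_atv v h * cd_atv v k := by
  induction v with
  | nil => rfl
  | cons x v ih => rcases x with _ | _ <;> simp [cd_atv, ih, pair_mul]

theorem cd_atv_one (v : List Bool) : cd_atv v 1 = 1 := by
  induction v with
  | nil => rfl
  | cons x v ih => rcases x with _ | _ <;> simp [cd_atv, ih]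

theorem cd_atv_inv (v : List Bool) (h : T) : cd_atv v h⁻¹ = (cd_atv v h)⁻¹ := by
  rw [eq_inv_iff_mul_eq_one, ← cd_atv_mul, inv_mul_cancel, cd_atv_one]

theorem cd_atv_fix (v : List Bool) (h : T) : ∀ w : List Bool, ¬ v <+: w → cd_atv v h w = w := by
  induction v with
  | nil => intro w hw; exact absurd (List.nil_prefix) hw
  | cons x v ih =>
    intro w hw
    rcases w with _ | ⟨y, w⟩
    · exact app_nil _
    · rw [List.cons_prefix_cons] at hw
      rcases x with _ | _ <;> rcases y with _ | _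
      · simp only [cd_atv, pair_false]
        rw [ih w (fun h1 => hw ⟨rfl, h1⟩)]
      · simp [cd_atv]
      · simp [cd_atv]
      · simp only [cd_atv, pair_true]
        rw [ih w (fun h1 => hw ⟨rfl, h1⟩)]

theorem cd_swap (h : Fam D) {n : ℕ} {S : Subgroup T} (hS : NormBy (D n) S) (y : T) :
    pair 1 y ∈ S ↔ pair y 1 ∈ S := by
  have key : ∀ u v : T, pair u v ∈ S → pair v u ∈ S := by
    intro u v huv
    have h1 := hS a (h.gam n a_mem) _ huv
    rwa [a_inv, a_pair_a] at h1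
  exact ⟨key _ _, key _ _⟩

theorem cd_atv_mem (h : Fam D) (v : List Bool) : ∀ (n : ℕ) (S : Subgroup T), NormBy (D n) S →
    ∀ x : T, cd_atv v x ∈ S ↔ x ∈ downs v.length S := by
  induction v with
  | nil => intro n S _ x; exact Iff.rfl
  | cons y v ih =>
    intro n S hS x
    have h1 := ih (n + 1) (down S) (NormBy_down h hS) x
    rcases y with _ | _
    · exact h1
    · exact (cd_swap h hS _).trans h1

theorem cd_t_mem : t ∈ Γ :=
  Γ.mul_mem (Γ.mul_mem (Γ.mul_mem a_mem b_mem) a_mem) b_mem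

theorem cd_KD_le {E : Subgroup T} (hE : Γ ≤ E) : KD E ≤ E := by
  rw [KD, Subgroup.closure_le]
  rintro x ⟨g, hg, k, hk, rfl⟩
  have h1 : K ≤ E := by
    rw [K, Subgroup.closure_le]
    rintro y ⟨g', hg', rfl⟩
    exact E.mul_mem (E.mul_mem (hE hg') (hE cd_t_mem)) (E.inv_mem (hE hg'))
  exact E.mul_mem (E.mul_mem hg (h1 hk)) (E.inv_mem hg)

/-- a word of length divisible by 3 which is moved -/
theorem cd_word {g : T} (hg : g ≠ 1) : ∃ v : List Bool, 3 ∣ v.length ∧ g v ≠ v := by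
  obtain ⟨w, hw⟩ : ∃ w, g w ≠ w := by
    by_contra hcon
    push Not at hcon
    exact hg (T.ext fun w => by rw [hcon w]; rfl)
  refine ⟨w ++ List.replicate (2 * w.length) false, ?_, fun h1 => hw ?_⟩
  · rw [List.length_append, List.length_replicate]
    exact ⟨w.length, by ring⟩
  · have h0 : w <+: w ++ List.replicate (2 * w.length) false := List.prefix_append _ _
    have h2 := pre g h0
    rw [h1] at h2
    have h3 := List.prefix_iff_eq_take.1 h2
    have h4 := List.prefix_iff_eq_take.1 h0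
    rw [len] at h3
    rw [h3, ← h4]

/-- automorphisms supported below different words of the same length commute -/
theorem cd_commute {v u : List Bool} (hl : u.length = v.length) (hne : u ≠ v) {X Y : T}
    (hX : ∀ w, ¬ u <+: w → X w = w) (hY : ∀ w, ¬ v <+: w → Y w = w) : X * Y = Y * X := by
  have h1 : Equiv.Perm.Disjoint (X : Equiv.Perm (List Bool)) (Y : Equiv.Perm (List Bool)) := by
    intro w
    by_cases hu : u <+: w
    · right
      refine hY w fun hv => hne ?_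
      have h2 := List.prefix_iff_eq_take.1 hu
      have h3 := List.prefix_iff_eq_take.1 hv
      rw [h2, h3, hl]
    · left
      exact hX w hu
  exact Subtype.ext h1.commute

theorem comm_mem (h : Fam D) {N : Subgroup T} (hN : N ≤ D 0) (hn : NormBy (D 0) N)
    (h1 : ∃ g ∈ N, g ≠ 1) : ∃ l, 3 ∣ l ∧ ⁅KD (D l), KD (D l)⁆ ≤ downs l N := by
  obtain ⟨g, hgN, hg1⟩ := h1
  obtain ⟨v, hv3, hgv⟩ := cd_word hg1
  refine ⟨v.length, hv3, ?_⟩
  rw [Subgroup.commutator_le]
  intro x hx y hy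
  have hmem : ∀ z ∈ KD (D v.length), cd_atv v z ∈ D 0 := by
    intro z hz
    have h2 := KD_le_downs h 0 v.length
    rw [zero_add] at h2
    exact cd_KD_le (h.gam 0) ((cd_atv_mem h v 0 _ (NormBy_KD (D 0)) z).2 (h2 hz))
  have hX := hmem x hx
  have hY := hmem y hy
  rw [← cd_atv_mem h v 0 N hn]
  set X := cd_atv v x with hXdef
  set Y := cd_atv v y with hYdef
  have hcomm : (g * X⁻¹ * g⁻¹) * Y = Y * (g * X⁻¹ * g⁻¹) := by
    refine cd_commute (len g v) hgv (fun w hw => ?_) (cd_atv_fix v y)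
    rw [mul_app, mul_app, hXdef, ← cd_atv_inv, cd_atv_fix v x⁻¹ (g⁻¹ w), app_inv_self]
    intro h2
    apply hw
    have h3 := pre g h2
    rwa [app_inv_self] at h3
  have hc1 : X * g * X⁻¹ * g⁻¹ ∈ N := N.mul_mem (hn X hX g hgN) (N.inv_mem hgN)
  have hc2 : (X * g * X⁻¹ * g⁻¹) * (Y * (X * g * X⁻¹ * g⁻¹)⁻¹ * Y⁻¹) ∈ N :=
    N.mul_mem hc1 (hn Y hY _ (N.inv_mem hc1))
  have h5 : cd_atv v (x * y * x⁻¹ * y⁻¹) = X * Y * X⁻¹ * Y⁻¹ := by
    rw [cd_atv_mul, cd_atv_mul, cd_atv_mul, cd_atv_inv, cd_atv_inv]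
  have h6 : (X * g * X⁻¹ * g⁻¹) * (Y * (X * g * X⁻¹ * g⁻¹)⁻¹ * Y⁻¹) = X * Y * X⁻¹ * Y⁻¹ := by
    have h7 : X * g * X⁻¹ * g⁻¹ = X * (g * X⁻¹ * g⁻¹) := by group
    rw [h7]
    set X' := g * X⁻¹ * g⁻¹ with hX'
    calc X * X' * (Y * (X * X')⁻¹ * Y⁻¹) = X * (X' * Y) * X'⁻¹ * X⁻¹ * Y⁻¹ := by group
      _ = X * (Y * X') * X'⁻¹ * X⁻¹ * Y⁻¹ := by rw [hcomm]
      _ = X * Y * X⁻¹ * Y⁻¹ := by group
  change cd_atv v (x * y * x⁻¹ * y⁻¹) ∈ N
  rw [h5, ← h6]
  exact hc2

end H8AF
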