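import Pool.Agent.Lib.H8AF.Stmt

/-!
# MP_af9c8b_al : basic definitions

Vertices of the rooted binary tree are the words `List Bool` (`false` is the letter `0`, `true` is the
letter `1`).  `T` is the group of automorphisms of the tree, realised as the subgroup of the
permutations of `List Bool` that preserve the length and the prefix order.
-/

namespace H8AF

open Equiv

/-! ### the group of tree automorphisms -/

/-- automorphisms of the rooted tree -/
def Tree : Subgroup (Perm (List Bool)) where
  carrier := {f | (∀ w, (f w).length = w.length) ∧ ∀ w u, w <+: u → f w <+: f u}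
  one_mem' := ⟨fun _ => rfl, fun _ _ h => h⟩
  mul_mem' := by
    rintro f g ⟨hf, hf'⟩ ⟨hg, hg'⟩
    refine ⟨fun w => ?_, fun w u h => ?_⟩
    · simp [hf, hg]
    · exact hf' _ _ (hg' _ _ h)
  inv_mem' := by
    rintro f ⟨hf, hf'⟩
    have hl : ∀ w, (f⁻¹ w).length = w.length := fun w => by
      have := hf (f⁻¹ w); simpa using this.symm
    refine ⟨hl, fun w u h => ?_⟩
    have h1 : (f⁻¹ u).take w.length <+: f⁻¹ u := List.take_prefix _ _
    have h2 := hf' _ _ h1
    have e0 : ∀ v, f (f⁻¹ v) = v := fun v => Equiv.apply_symm_apply f v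
    have e0' : ∀ v, f⁻¹ (f v) = v := fun v => Equiv.symm_apply_apply f v
    rw [e0] at h2
    have hwu : w.length ≤ u.length := h.length_le
    have h3 : (f ((f⁻¹ u).take w.length)).length = w.length := by
      rw [hf, List.length_take, hl]; omega
    have h4 : f ((f⁻¹ u).take w.length) = w := by
      have e1 := List.prefix_iff_eq_take.1 h2
      have e2 := List.prefix_iff_eq_take.1 h
      rw [e1, h3, ← e2]
    have h5 : (f⁻¹ u).take w.length = f⁻¹ w := by
      rw [← e0' ((f⁻¹ u).take w.length), h4]
    rw [← h5]; exact h1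

/-- the group of automorphisms of the tree -/
abbrev T := ↥Tree

instance : CoeFun T (fun _ => List Bool → List Bool) := ⟨fun g => (g : Perm (List Bool))⟩

@[ext] theorem T.ext {f g : T} (h : ∀ w, f w = g w) : f = g := Subtype.ext (Equiv.ext h)

@[simp] theorem mul_app (f g : T) (w : List Bool) : (f * g) w = f (g w) := rfl
@[simp] theorem one_app (w : List Bool) : (1 : T) w = w := rfl
@[simp] theorem inv_app_self (f : T) (w : List Bool) : f⁻¹ (f w) = w :=
  Equiv.symm_apply_apply (f : Perm (List Bool)) w
@[simp] theorem app_inv_self (f : T) (w : List Bool) : f (f⁻¹ w) = w :=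
  Equiv.apply_symm_apply (f : Perm (List Bool)) w
theorem len (f : T) (w : List Bool) : (f w).length = w.length := f.2.1 w
theorem pre (f : T) {w u : List Bool} (h : w <+: u) : f w <+: f u := f.2.2 w u h
@[simp] theorem app_nil (f : T) : f [] = [] := by
  have := len f []; simpa using this
theorem app_inj (f : T) {w u : List Bool} (h : f w = f u) : w = u :=
  (f : Perm (List Bool)).injective h

/-- `(u, v)` acts by `u` on the subtree of `0` and by `v` on the subtree of `1` -/
def pairF (u v : List Bool → List Bool) : List Bool → List Bool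
  | [] => []
  | false :: w => false :: u w
  | true :: w => true :: v w

def pair (u v : T) : T :=
  ⟨⟨pairF u v, pairF (u⁻¹ : T) (v⁻¹ : T),
    fun w => by rcases w with _ | ⟨_ | _, w⟩ <;> simp [pairF],
    fun w => by rcases w with _ | ⟨_ | _, w⟩ <;> simp [pairF]⟩, by
    refine ⟨fun w => ?_, fun w z h => ?_⟩
    · rcases w with _ | ⟨_ | _, w⟩ <;> simp [pairF, len]
    · rcases w with _ | ⟨_ | _, w⟩
      · simp [pairF]
      · rcases z with _ | ⟨_ | _, z⟩
        · simp at h
        · have : w <+: z := by simpa using h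
          simpa [pairF] using pre u this
        · simp at h
      · rcases z with _ | ⟨_ | _, z⟩
        · simp at h
        · simp at h
        · have : w <+: z := by simpa using h
          simpa [pairF] using pre v this⟩

@[simp] theorem pair_nil (u v : T) : pair u v [] = [] := rfl
@[simp] theorem pair_false (u v : T) (w : List Bool) : pair u v (false :: w) = false :: u w := rfl
@[simp] theorem pair_true (u v : T) (w : List Bool) : pair u v (true :: w) = true :: v w := rfl

theorem pair_mul (u v u' v' : T) : pair u v * pair u' v' = pair (u * u') (v * v') := by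
  refine T.ext fun w => ?_
  rcases w with _ | ⟨_ | _, w⟩ <;> simp
@[simp] theorem pair_one : pair 1 1 = 1 := by
  refine T.ext fun w => ?_
  rcases w with _ | ⟨_ | _, w⟩ <;> simp
theorem pair_inv (u v : T) : (pair u v)⁻¹ = pair u⁻¹ v⁻¹ := by
  rw [inv_eq_iff_mul_eq_one, pair_mul]; simp
theorem pair_pow (u v : T) (n : ℕ) : (pair u v) ^ n = pair (u ^ n) (v ^ n) := by
  induction n with
  | zero => simp
  | succ n ih => rw [pow_succ, ih, pair_mul, pow_succ, pow_succ]
theorem pair_inj {u v u' v' : T} (h : pair u v = pair u' v') : u = u' ∧ v = v' := by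
  constructor
  · refine T.ext fun w => ?_
    have := congrArg (fun f : T => f (false :: w)) h
    simpa using this
  · refine T.ext fun w => ?_
    have := congrArg (fun f : T => f (true :: w)) h
    simpa using this

/-! ### the generators in `T` -/

theorem aF_len (w : List Bool) : (aF w).length = w.length := by cases w <;> simp [aF]
theorem bcdF_len (w : List Bool) :
    (bF w).length = w.length ∧ (cF w).length = w.length ∧ (dF w).length = w.length := by
  induction w with
  | nil => simp [bF, cF, dF]
  | cons x w ih =>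
    obtain ⟨h1, h2, h3⟩ := ih
    cases x <;> simp [bF, cF, dF, aF_len, h1, h2, h3]
theorem aF_pre (w u : List Bool) (h : w <+: u) : aF w <+: aF u := by
  rcases w with _ | ⟨x, w⟩
  · simp [aF]
  · rcases u with _ | ⟨y, u⟩
    · simp at h
    · rw [List.cons_prefix_cons] at h
      obtain ⟨rfl, h⟩ := h
      simpa [aF] using h
theorem bcdF_pre (w : List Bool) : ∀ u, w <+: u →
    bF w <+: bF u ∧ cF w <+: cF u ∧ dF w <+: dF u := by
  induction w with
  | nil => intro u _; simp [bF, cF, dF]
  | cons x w ih =>
    intro u h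
    rcases u with _ | ⟨y, u⟩
    · simp at h
    · rw [List.cons_prefix_cons] at h
      obtain ⟨rfl, h⟩ := h
      obtain ⟨h1, h2, h3⟩ := ih u h
      cases x <;> simp [bF, cF, dF, aF_pre _ _ h, h, h1, h2, h3]

def a : T := ⟨pa, aF_len, aF_pre⟩
def b : T := ⟨pb, fun w => (bcdF_len w).1, fun w u h => (bcdF_pre w u h).1⟩
def c : T := ⟨pc, fun w => (bcdF_len w).2.1, fun w u h => (bcdF_pre w u h).2.1⟩
def d : T := ⟨pd, fun w => (bcdF_len w).2.2, fun w u h => (bcdF_pre w u h).2.2⟩

@[simp] theorem a_nil : a [] = [] := rfl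
@[simp] theorem a_cons (x : Bool) (w : List Bool) : a (x :: w) = (!x) :: w := rfl
@[simp] theorem b_false (w : List Bool) : b (false :: w) = false :: a w := by
  change bF _ = _; simp [bF]; rfl
@[simp] theorem b_true (w : List Bool) : b (true :: w) = true :: c w := by
  change bF _ = _; simp [bF]; rfl
@[simp] theorem c_false (w : List Bool) : c (false :: w) = false :: a w := by
  change cF _ = _; simp [cF]; rfl
@[simp] theorem c_true (w : List Bool) : c (true :: w) = true :: d w := by
  change cF _ = _; simp [cF]; rfl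
@[simp] theorem d_false (w : List Bool) : d (false :: w) = false :: w := by
  change dF _ = _; simp [dF]
@[simp] theorem d_true (w : List Bool) : d (true :: w) = true :: b w := by
  change dF _ = _; simp [dF]; rfl

theorem b_eq : b = pair a c := by
  refine T.ext fun w => ?_
  rcases w with _ | ⟨_ | _, w⟩ <;> simp
theorem c_eq : c = pair a d := by
  refine T.ext fun w => ?_
  rcases w with _ | ⟨_ | _, w⟩ <;> simp
theorem d_eq : d = pair 1 b := by
  refine T.ext fun w => ?_
  rcases w with _ | ⟨_ | _, w⟩ <;> simp

@[simp] theorem aa : a * a = 1 := T.ext fun w => aF_inv w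
@[simp] theorem bb : b * b = 1 := T.ext fun w => (bcdF_inv w).1
@[simp] theorem cc : c * c = 1 := T.ext fun w => (bcdF_inv w).2.1
@[simp] theorem dd : d * d = 1 := T.ext fun w => (bcdF_inv w).2.2
@[simp] theorem a_inv : a⁻¹ = a := inv_eq_of_mul_eq_one_left aa
@[simp] theorem b_inv : b⁻¹ = b := inv_eq_of_mul_eq_one_left bb
@[simp] theorem c_inv : c⁻¹ = c := inv_eq_of_mul_eq_one_left cc
@[simp] theorem d_inv : d⁻¹ = d := inv_eq_of_mul_eq_one_left dd

/-- conjugation by `a` swaps the two subtrees -/
theorem a_pair_a (u v : T) : a * pair u v * a = pair v u := by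
  refine T.ext fun w => ?_
  rcases w with _ | ⟨_ | _, w⟩ <;> simp
theorem a_pair (u v : T) : a * pair u v = pair v u * a := by
  rw [← a_pair_a u v, mul_assoc, aa, mul_one]

/-- every automorphism is `(u, v)` or `a (u, v)` -/
theorem form_aux (g : T) (h : g [false] = [false]) : ∃ u v : T, g = pair u v := by
  have h1 : ∀ x w, ∃ z, g (x :: w) = x :: z := by
    have hf : ∀ w, ∃ z, g (false :: w) = false :: z := by
      intro w
      have := pre g (w := [false]) (u := false :: w) (by simp)
      rw [h] at this
      obtain ⟨z, hz⟩ := this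
      exact ⟨z, by simpa using hz.symm⟩
    have ht : g [true] = [true] := by
      have hl := len g [true]
      obtain ⟨y, hy⟩ := List.length_eq_one_iff.1 (by simpa using hl)
      rcases y with _ | _
      · exfalso
        have := app_inj g (hy.trans h.symm)
        simp at this
      · exact hy
    intro x w
    rcases x with _ | _
    · exact hf w
    · have := pre g (w := [true]) (u := true :: w) (by simp)
      rw [ht] at this
      obtain ⟨z, hz⟩ := this
      exact ⟨z, by simpa using hz.symm⟩
  have h2 : ∀ x w, g (x :: w) = x :: (g (x :: w)).tail := by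
    intro x w
    obtain ⟨z, hz⟩ := h1 x w
    rw [hz]; simp
  have h3 : ∀ x w, g⁻¹ (x :: w) = x :: (g⁻¹ (x :: w)).tail := by
    intro x w
    obtain ⟨z, hz⟩ : ∃ z, g⁻¹ (x :: w) = z := ⟨_, rfl⟩
    rcases z with _ | ⟨y, z⟩
    · have := len g⁻¹ (x :: w)
      rw [hz] at this; simp at this
    · have e : g (y :: z) = x :: w := by rw [← hz]; simp
      rw [h2] at e
      rw [hz]
      have : y = x := by injection e
      simp [this]
  have key : ∀ x : Bool, ∃ u : T, ∀ w, g (x :: w) = x :: u w := by
    intro x
    refine ⟨⟨⟨fun w => (g (x :: w)).tail, fun w => (g⁻¹ (x :: w)).tail, ?_, ?_⟩, ?_, ?_⟩, ?_⟩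
    · intro w; simp only
      rw [← h2]; simp
    · intro w; simp only
      rw [← h3]; simp
    · intro w
      change ((g (x :: w)).tail).length = _
      rw [List.length_tail, len]; simp
    · intro w u hwu
      change (g (x :: w)).tail <+: (g (x :: u)).tail
      have := pre g (w := x :: w) (u := x :: u) (by simpa using hwu)
      rw [h2 x w, h2 x u] at this
      simpa using this
    · intro w
      exact h2 x w
  obtain ⟨u, hu⟩ := key false
  obtain ⟨v, hv⟩ := key true
  refine ⟨u, v, T.ext fun w => ?_⟩
  rcases w with _ | ⟨_ | _, w⟩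
  · simp
  · rw [hu]; simp
  · rw [hv]; simp

theorem form (g : T) : ∃ u v : T, g = pair u v ∨ g = a * pair u v := by
  have hl := len g [false]
  obtain ⟨y, hy⟩ := List.length_eq_one_iff.1 (by simpa using hl)
  rcases y with _ | _
  · obtain ⟨u, v, h⟩ := form_aux g hy
    exact ⟨u, v, Or.inl h⟩
  · obtain ⟨u, v, h⟩ := form_aux (a * g) (by rw [mul_app, hy]; rfl)
    refine ⟨u, v, Or.inr ?_⟩
    rw [← h, ← mul_assoc, aa, one_mul]

/-- first Grigorchuk group inside `T` -/
def Γ : Subgroup T := Subgroup.closure {a, b, c, d}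

theorem a_mem : a ∈ Γ := Subgroup.subset_closure (by simp)
theorem b_mem : b ∈ Γ := Subgroup.subset_closure (by simp)
theorem c_mem : c ∈ Γ := Subgroup.subset_closure (by simp)
theorem d_mem : d ∈ Γ := Subgroup.subset_closure (by simp)

theorem bcd_cycle (w : List Bool) : b (c w) = d w ∧ c (d w) = b w ∧ d (b w) = c w := by
  induction w with
  | nil => simp
  | cons x w ih =>
    obtain ⟨h1, h2, h3⟩ := ih
    have haa : a (a w) = w := aF_inv w
    rcases x with _ | _ <;> simp [h1, h2, h3, haa]
@[simp] theorem bc : b * c = d := T.ext fun w => (bcd_cycle w).1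
@[simp] theorem cd : c * d = b := T.ext fun w => (bcd_cycle w).2.1
@[simp] theorem db : d * b = c := T.ext fun w => (bcd_cycle w).2.2
@[simp] theorem cb : c * b = d := by
  have := congrArg (fun x : T => x⁻¹) bc
  simp only [mul_inv_rev, b_inv, c_inv, d_inv] at this; exact this
@[simp] theorem dc : d * c = b := by
  have := congrArg (fun x : T => x⁻¹) cd
  simp only [mul_inv_rev, b_inv, c_inv, d_inv] at this; exact this
@[simp] theorem bd : b * d = c := by
  have := congrArg (fun x : T => x⁻¹) db
  simp only [mul_inv_rev, b_inv, c_inv, d_inv] at this; exact this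

/-! ### equality up to level `n` -/

/-- `f` and `g` act in the same way on the words of length `n` -/
def Eqn (n : ℕ) (f g : T) : Prop := ∀ w : List Bool, w.length = n → f w = g w

theorem Eqn.rfl {n : ℕ} {f : T} : Eqn n f f := fun _ _ => Eq.refl _
theorem Eqn.of_eq {n : ℕ} {f g : T} (h : f = g) : Eqn n f g := by subst h; exact Eqn.rfl
theorem Eqn.symm {n : ℕ} {f g : T} (h : Eqn n f g) : Eqn n g f := fun w hw => (h w hw).symm
theorem Eqn.trans {n : ℕ} {f g k : T} (h : Eqn n f g) (h' : Eqn n g k) : Eqn n f k :=
  fun w hw => (h w hw).trans (h' w hw)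
theorem Eqn.mul {n : ℕ} {f g f' g' : T} (h : Eqn n f g) (h' : Eqn n f' g') :
    Eqn n (f * f') (g * g') := fun w hw => by
  rw [mul_app, mul_app, h' w hw]
  exact h _ (by rw [len]; exact hw)
theorem Eqn.inv {n : ℕ} {f g : T} (h : Eqn n f g) : Eqn n f⁻¹ g⁻¹ := fun w hw => by
  apply app_inj f
  rw [app_inv_self, h _ (by rw [len]; exact hw), app_inv_self]
theorem Eqn.pow {n : ℕ} {f g : T} (h : Eqn n f g) (k : ℕ) : Eqn n (f ^ k) (g ^ k) := by
  induction k with
  | zero => simpa using Eqn.rfl
  | succ k ih => rw [pow_succ, pow_succ]; exact ih.mul h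
theorem Eqn.mono {m n : ℕ} {f g : T} (h : Eqn n f g) (hmn : m ≤ n) : Eqn m f g := fun w hw => by
  have h0 : w <+: w ++ List.replicate (n - m) false := List.prefix_append _ _
  have hl : (w ++ List.replicate (n - m) false).length = n := by
    rw [List.length_append, List.length_replicate]; omega
  have h1 := List.prefix_iff_eq_take.1 (pre f h0)
  have h2 := List.prefix_iff_eq_take.1 (pre g h0)
  rw [len] at h1 h2
  rw [h1, h2, h _ hl]
theorem Eqn_zero (f g : T) : Eqn 0 f g := fun w hw => by
  rw [List.eq_nil_of_length_eq_zero hw, app_nil, app_nil]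
theorem Eqn_pair {n : ℕ} {u v u' v' : T} :
    Eqn (n + 1) (pair u v) (pair u' v') ↔ Eqn n u u' ∧ Eqn n v v' := by
  constructor
  · intro h
    constructor
    · intro w hw
      have := h (false :: w) (by simp [hw])
      simpa using this
    · intro w hw
      have := h (true :: w) (by simp [hw])
      simpa using this
  · rintro ⟨h, h'⟩ w hw
    rcases w with _ | ⟨_ | _, w⟩
    · simp
    · rw [pair_false, pair_false, h w (by simpa using hw)]
    · rw [pair_true, pair_true, h' w (by simpa using hw)]
theorem Eqn.pair {n : ℕ} {u v u' v' : T} (h : Eqn n u u') (h' : Eqn n v v') :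
    Eqn (n + 1) (pair u v) (pair u' v') := Eqn_pair.2 ⟨h, h'⟩
theorem eq_of_Eqn {f g : T} (h : ∀ n, Eqn n f g) : f = g := T.ext fun w => h w.length w (Eq.refl _)
theorem not_Eqn_a_pair {n : ℕ} (u v : T) : ¬ Eqn (n + 1) (a * H8AF.pair u v) 1 := by
  intro h
  have h1 := h.mono (show 1 ≤ n + 1 by omega)
  have := h1 [false] (Eq.refl _)
  simp at this

/-- the action on level `n` -/
def ρ (n : ℕ) : T →* Perm (List.Vector Bool n) where
  toFun f := ⟨fun w => ⟨f w.1, by rw [len]; exact w.2⟩, fun w => ⟨f⁻¹ w.1, by rw [len]; exact w.2⟩,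
    fun w => Subtype.ext (inv_app_self f w.1), fun w => Subtype.ext (app_inv_self f w.1)⟩
  map_one' := Eq.refl _
  map_mul' f g := by
    apply Equiv.ext
    intro w
    exact Eq.refl _

theorem ρ_app (n : ℕ) (f : T) (w : List.Vector Bool n) : (ρ n f w).1 = f w.1 := Eq.refl _

theorem Eqn_iff {n : ℕ} {f g : T} : Eqn n f g ↔ ρ n f = ρ n g := by
  constructor
  · intro h
    apply Equiv.ext
    intro w
    exact Subtype.ext (h w.1 w.2)
  · intro h w hw
    have := congrArg (fun p : Perm (List.Vector Bool n) => (p ⟨w, hw⟩).1) h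
    exact this

/-! ### the subgroup `K` and the operation `down` -/

/-- `(a b)^2` -/
def t : T := a * b * a * b

/-- `K` : the normal closure of `(a b)^2` in `Γ` -/
def K : Subgroup T := Subgroup.closure {x | ∃ g ∈ Γ, x = g * t * g⁻¹}

/-- the embedding `g ↦ (g, 1)` -/
def inl : T →* T where
  toFun g := pair g 1
  map_one' := pair_one
  map_mul' g h := by rw [pair_mul, mul_one]

@[simp] theorem inl_app (g : T) : inl g = pair g 1 := Eq.refl _

/-- `{g | (g, 1) ∈ S}` -/
def down (S : Subgroup T) : Subgroup T := S.comap inl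

theorem mem_down {S : Subgroup T} {g : T} : g ∈ down S ↔ pair g 1 ∈ S := Iff.rfl

/-- `down` iterated -/
def downs : ℕ → Subgroup T → Subgroup T
  | 0, S => S
  | n + 1, S => downs n (down S)

/-- `S` is normalised by `D` -/
def NormBy (D S : Subgroup T) : Prop := ∀ g ∈ D, ∀ x ∈ S, g * x * g⁻¹ ∈ S

/-- the normal closure of `K` in `D` -/
def KD (D : Subgroup T) : Subgroup T := Subgroup.closure {x | ∃ g ∈ D, ∃ k ∈ K, x = g * k * g⁻¹}

/-- the sequences of groups for which the congruence subgroup property is proved; `D n` consists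
of the sections of level `n` of the elements of `D 0` -/
structure Fam (D : ℕ → Subgroup T) : Prop where
  gam : ∀ n, Γ ≤ D n
  sec : ∀ n, ∀ g ∈ D n, ∃ u ∈ D (n + 1), ∃ v ∈ D (n + 1), g = pair u v ∨ g = a * pair u v
  lift : ∀ n, ∀ g ∈ D (n + 1), ∃ h, pair g h ∈ D n
  appr : ∀ n, ∀ g ∈ D n, ∀ N, ∃ γ ∈ Γ, Eqn N g γ
  dense : ∀ n, 3 ∣ n → ∀ g ∈ D n, ∃ γ ∈ Γ, ∃ k ∈ KD (D n), g = γ * k

end H8AF
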