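import Pool.Agent.Lib.H8AF.KF1

/-!
# Chunk KF2 (this file: t_comm, K_inl, K_inr, ad4, ac4_mem, adad_mem) : basic facts on `Γ` and `K`

PROOF.
* `sec_Γ`: closure induction; products: `pair u v * pair u' v'`, `a * pair u v * pair u' v'`,
  `pair u v * (a * pair u' v') = a * pair (v u') (u v')`, etc. (`a_pair`); inverses similarly.
  Generators: `a = a * pair 1 1`, `b = pair a c`, `c = pair a d`, `d = pair 1 b`.
* `lift_Γ`: closure induction with the statement `∃ h ∈ Γ, pair g h ∈ Γ` :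
  `a`: `pair a c = b`; `b`: `pair b 1 = a d a`; `c`: `pair c a = a b a`; `d`: `pair d a = a c a`.
* `NormBy_Γ_K`: closure induction on `x ∈ K`.
* `K_pair`: `t = pair (c a) (a c)`; with `y = a d a = pair b 1`:
  `t * y * t⁻¹ * y⁻¹ = pair (c a b a c b) 1`, and `c a b a c b = c t c` (`c b = d`, `t c = a b a b c = a b a d`).
  So `pair (c t c) 1 ∈ K`.  The set `down K` is normalised by `Γ` (`lift_Γ`, `NormBy_Γ_K`), contains
  `c t c`, hence `t`, hence all of `K`.  `pair 1 k = a * pair k 1 * a`.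
* `ac4_mem : (a c)^4 ∈ K`: `a c = (a d) b`...  One way: in the quotient of `Γ` by `K` the elements `a`, `b`
  commute and `b` commutes with `d`, so `(a d b)^4 = (a d)^4 b^4 = 1`.  Another way: explicit product of
  conjugates of `t`, for instance `a b = t b a`, so every `b` can be moved to the right modulo `K`.
* `ad4 : (a d)^4 = 1`: `(a d)^2 = pair b 1 * pair 1 b = pair b b`.
* `adad_mem`: `(a c)^2 = pair (d a) (a d)`, `(a c)^4 = pair ((d a)^2) ((a d)^2)`, and
  `(d a)^2 = (a d)^2` because `(a d)^4 = 1`.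
-/

namespace H8AF

theorem KF2_aa (z : T) : a * (a * z) = z := by rw [← mul_assoc, aa, one_mul]
theorem KF2_bb (z : T) : b * (b * z) = z := by rw [← mul_assoc, bb, one_mul]
theorem KF2_cc (z : T) : c * (c * z) = z := by rw [← mul_assoc, cc, one_mul]
theorem KF2_dd (z : T) : d * (d * z) = z := by rw [← mul_assoc, dd, one_mul]
theorem KF2_bc (z : T) : b * (c * z) = d * z := by rw [← mul_assoc, bc]
theorem KF2_cb (z : T) : c * (b * z) = d * z := by rw [← mul_assoc, cb]
theorem KF2_cd (z : T) : c * (d * z) = b * z := by rw [← mul_assoc, cd]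
theorem KF2_dc (z : T) : d * (c * z) = b * z := by rw [← mul_assoc, dc]
theorem KF2_bd (z : T) : b * (d * z) = c * z := by rw [← mul_assoc, bd]
theorem KF2_db (z : T) : d * (b * z) = c * z := by rw [← mul_assoc, db]

theorem KF2_t : t = pair (c * a) (a * c) := by
  have h1 : a * b * a = pair c a := by rw [b_eq]; exact a_pair_a a c
  unfold t
  rw [h1]
  conv_lhs => rw [b_eq]
  rw [pair_mul]

theorem KF2_ada : a * d * a = pair b 1 := by
  rw [d_eq]; exact a_pair_a 1 b

theorem KF2_aca : a * c * a = pair d a := by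
  rw [c_eq]; exact a_pair_a a d

theorem t_comm : t * (a * d * a) * t⁻¹ * (a * d * a)⁻¹ = pair (c * t * c) 1 := by
  have h : c * t * c = c * a * b * (c * a)⁻¹ * b⁻¹ := by
    unfold t
    simp only [mul_inv_rev, a_inv, b_inv, c_inv, mul_assoc, bc, cb]
  rw [KF2_ada, h]
  conv_lhs => rw [KF2_t]
  simp only [pair_inv, pair_mul]
  congr 1
  group

theorem KF2_norm_down : NormBy Γ (down K) := by
  intro g hg x hx
  obtain ⟨h, -, hh⟩ := lift_Γ g hg
  have h1 := NormBy_Γ_K _ hh _ (mem_down.1 hx)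
  rw [pair_inv, pair_mul, pair_mul] at h1
  rw [mem_down]
  simpa using h1

theorem KF2_t_down : t ∈ down K := by
  have h1 : c * t * c ∈ down K := by
    rw [mem_down, ← t_comm]
    have hy : a * d * a ∈ Γ := mul_mem (mul_mem a_mem d_mem) a_mem
    have h2 := NormBy_Γ_K _ hy _ (inv_mem t_mem)
    have h3 : t * (a * d * a) * t⁻¹ * (a * d * a)⁻¹ =
        t * ((a * d * a) * t⁻¹ * (a * d * a)⁻¹) := by group
    rw [h3]
    exact mul_mem t_mem h2
  have h2 := KF2_norm_down c c_mem _ h1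
  have h3 : c * (c * t * c) * c⁻¹ = t := by
    simp only [c_inv, mul_assoc, KF2_cc, cc, mul_one]
  rwa [h3] at h2

theorem K_inl : ∀ k ∈ K, pair k 1 ∈ K := by
  intro k hk
  have h : K ≤ down K := by
    conv_lhs => unfold K
    rw [Subgroup.closure_le]
    rintro x ⟨g, hg, rfl⟩
    exact KF2_norm_down g hg _ KF2_t_down
  exact mem_down.1 (h hk)

theorem K_inr : ∀ k ∈ K, pair 1 k ∈ K := by
  intro k hk
  have h := NormBy_Γ_K a a_mem _ (K_inl k hk)
  rwa [a_inv, a_pair_a] at h

theorem ad4 : (a * d) ^ 4 = 1 := by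
  have h : (a * d) ^ 4 = (a * d * a * d) * (a * d * a * d) := by
    simp only [pow_succ, pow_zero, one_mul, mul_assoc]
  have h2 : a * d * a * d = pair b b := by
    rw [KF2_ada]
    conv_lhs => rw [d_eq]
    rw [pair_mul, mul_one, one_mul]
  rw [h, h2, pair_mul, bb, pair_one]

theorem ac4_mem : (a * c) ^ 4 ∈ K := by
  have hx : a * d ∈ Γ := mul_mem a_mem d_mem
  have h1 : (a * c) ^ 2 = (a * d) * t⁻¹ * (a * d) := by
    have : (a * c) ^ 2 = a * c * (a * c) := sq _
    rw [this]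
    unfold t
    simp only [mul_inv_rev, a_inv, b_inv, mul_assoc, KF2_aa, KF2_db, bd]
  have h2 : (a * c) ^ 4 = ((a * d) * t⁻¹ * (a * d)⁻¹) * ((a * d) ^ 3 * t⁻¹ * ((a * d) ^ 3)⁻¹) *
      (a * d) ^ 4 := by
    have : (a * c) ^ 4 = (a * c) ^ 2 * (a * c) ^ 2 := by group
    rw [this, h1]
    generalize a * d = x
    generalize t = y
    simp only [pow_succ, pow_zero, one_mul, mul_assoc, mul_inv_rev, inv_mul_cancel_left]
  rw [h2, ad4, mul_one]
  exact mul_mem (NormBy_Γ_K _ hx _ (inv_mem t_mem)) (NormBy_Γ_K _ (pow_mem hx 3) _ (inv_mem t_mem))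

theorem adad_mem : pair ((a * d) ^ 2) ((a * d) ^ 2) ∈ K := by
  have h1 : (a * c) ^ 4 = pair ((a * d) ^ 2) ((a * d) ^ 2) := by
    have e1 : (a * c) ^ 2 = pair (d * a) (a * d) := by
      have : (a * c) ^ 2 = a * c * a * c := by rw [sq, ← mul_assoc]
      rw [this, KF2_aca]
      conv_lhs => rw [c_eq]
      rw [pair_mul]
    have e2 : (a * c) ^ 4 = (a * c) ^ 2 * (a * c) ^ 2 := by group
    have e3 : d * a * (d * a) = (a * d) ^ 2 := by
      have e4 : (d * a * (d * a)) = ((a * d) ^ 2)⁻¹ := by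
        rw [sq]
        simp only [mul_inv_rev, a_inv, d_inv]
      rw [e4, inv_eq_iff_mul_eq_one]
      have : (a * d) ^ 2 * (a * d) ^ 2 = (a * d) ^ 4 := by group
      rw [this, ad4]
    rw [e2, e1, pair_mul, e3, ← sq]
  rw [← h1]
  exact ac4_mem

end H8AF
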