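import Pool.Agent.Lib.H8AF.Rel2
import Pool.Agent.Lib.H8AF.KF2

/-!
# Chunk FM1 (this file: fam_Γ, appr_M), FM2 (dense_M), FM3 (fam_M) : the families `Γ` and `D n = ⟨Γ, M⟩, ⟨Γ, r⟩, ⟨Γ, q⟩, ...`

PROOF.
* `fam_Γ`: `sec_Γ`, `lift_Γ`, `appr` and `dense` are trivial (`γ = g`, `k = 1`).
* `appr_M`: `∀ n, ∃ k ∈ K, Eqn n (M d) k`, by induction `n → n + 3` (strong induction; `n ≤ 2` follows by
  `Eqn.mono`).  Let `k ∈ K`, `Eqn n (M d) k`.  `u = M (a M a)`, `M = (M d) d`, so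
  `Eqn n u (k d a k d a)` and `k d a k d a = k (d a k a d) (d a d a) = κ (a d)^2` with
  `κ = k * (d a k (d a)⁻¹) ∈ K` (`(d a)^2 = (a d)^2`).  `x = pair u u`:
  `Eqn (n+1) x (pair κ κ * pair ((a d)^2) ((a d)^2))`, in `K` by `K_inl`, `K_inr`, `adad_mem`.
  `s = pair x x`: `Eqn (n+2) s k_s` with `k_s ∈ K`.
  `M d = pair s r * pair 1 b = pair s (r b)`, `r b = pair a q * pair a c = pair 1 (q c)`,
  `q c = pair a M * pair a d = pair 1 (M d)`.  So `M d = pair s (pair 1 (pair 1 (M d)))`.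
* `dense_M`: in `D 0 = ⟨Γ, M⟩`, modulo `KD (D 0)`: `a b = b a` (`t ∈ K`), `M b = b M`, so `m = a M a` commutes
  with `b` modulo `KD`; `(m b)^7 m = m^8 b^7 = b` modulo `KD` (`M_sq`), so `M = c b = d` modulo `KD` (`odd`).
  Then `{g | ∃ γ ∈ Γ, ∃ k ∈ KD, g = γ k}` is a subgroup that contains `Γ` and `M`.
* `fam_M`: `sec`: generators `M = pair s r`, `s = (a r)^8` (`s_eq`); `r = pair a q`; `q = pair a M`; products
  as in `sec_Γ`.  `lift`: `r`: `a M a = pair r s ∈ D 0`; `q`: `a r a = pair q a`; `M`: `a q a = pair M a`.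
  `appr`: `r`, `q` are in the closure of `Γ` as well, because `q = pair a M` and `Eqn n M (k d)`, so
  `Eqn (n+1) q (pair a (k d)) = pair 1 k * c`, hmm: `pair a (k d) = pair 1 k * pair a d = pair 1 k * c ∈ Γ`;
  `r = pair a q`, `Eqn (n+2) r (pair a (pair 1 k * c)) = pair 1 (pair 1 k) * b ∈ Γ`; then closure induction.
-/

namespace H8AF

theorem fam_Γ : Fam (fun _ => Γ) where
  gam := fun _ => le_rfl
  sec := fun _ g hg => sec_Γ g hg
  lift := fun _ g hg => by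
    obtain ⟨h, _, h2⟩ := lift_Γ g hg
    exact ⟨h, h2⟩
  appr := fun _ g hg _ => ⟨g, hg, Eqn.rfl⟩
  dense := fun _ _ g hg => ⟨g, hg, 1, one_mem _, (mul_one g).symm⟩

variable {M r q s x : T}

theorem FM1_ad : d * a * d * a = (a * d) ^ 2 := by
  have h : ((a * d) ^ 2) * ((a * d) ^ 2) = 1 := by
    rw [← pow_add]; exact ad4
  have h2 : ((a * d) ^ 2)⁻¹ = (a * d) ^ 2 := inv_eq_of_mul_eq_one_left h
  rw [← h2, pow_two]
  simp only [mul_inv_rev, a_inv, d_inv, mul_assoc]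

theorem FM1_pair {k : T} (hk : k ∈ K) : pair k k ∈ K := by
  have h : pair k k = pair k 1 * pair 1 k := by rw [pair_mul, mul_one, one_mul]
  rw [h]
  exact K.mul_mem (K_inl k hk) (K_inr k hk)

theorem FM1_Md (h : Sys M r q s x) : M * d = pair s (pair 1 (pair 1 (M * d))) := by
  nth_rw 1 [h.hM]
  rw [d_eq, pair_mul, mul_one, ← d_eq]
  congr 1
  nth_rw 1 [h.hr]
  rw [b_eq, pair_mul, aa]
  congr 1
  nth_rw 1 [h.hq]
  rw [c_eq, pair_mul, aa]

theorem FM1_step (h : Sys M r q s x) {n : ℕ} (hn : ∃ k ∈ K, Eqn n (M * d) k) :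
    ∃ k ∈ K, Eqn (n + 3) (M * d) k := by
  obtain ⟨k, hk, hE⟩ := hn
  have hM : Eqn n M (k * d) := by
    have h1 := hE.mul (Eqn.rfl (f := d))
    rwa [mul_assoc, dd, mul_one] at h1
  have hu : Eqn n (M * (a * M * a)) ((k * d) * (a * (k * d) * a)) :=
    hM.mul ((Eqn.rfl.mul hM).mul Eqn.rfl)
  have hκ : k * ((d * a) * k * (d * a)⁻¹) ∈ K :=
    K.mul_mem hk (NormBy_Γ_K _ (Γ.mul_mem d_mem a_mem) k hk)
  have e1 : (k * d) * (a * (k * d) * a) = (k * ((d * a) * k * (d * a)⁻¹)) * (a * d) ^ 2 := by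
    rw [← FM1_ad]
    simp only [mul_inv_rev, a_inv, d_inv, mul_assoc]
    rw [← mul_assoc d d, dd, one_mul, ← mul_assoc a a, aa, one_mul]
  rw [e1] at hu
  have hx : Eqn (n + 1) x (pair (k * ((d * a) * k * (d * a)⁻¹)) (k * ((d * a) * k * (d * a)⁻¹)) *
      pair ((a * d) ^ 2) ((a * d) ^ 2)) := by
    rw [pair_mul, h.hx]
    exact hu.pair hu
  have hxK := K.mul_mem (FM1_pair hκ) adad_mem
  set kx := pair (k * ((d * a) * k * (d * a)⁻¹)) (k * ((d * a) * k * (d * a)⁻¹)) *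
      pair ((a * d) ^ 2) ((a * d) ^ 2)
  have hs : Eqn (n + 1 + 1) s (pair kx kx) := by
    rw [h.hs]
    exact hx.pair hx
  have hsK := FM1_pair hxK
  refine ⟨pair (pair kx kx) 1 * pair 1 (pair 1 (pair 1 k)), K.mul_mem (K_inl _ hsK)
    (K_inr _ (K_inr _ (K_inr _ hk))), ?_⟩
  rw [pair_mul, mul_one, one_mul, FM1_Md h]
  exact hs.pair (Eqn.rfl.pair (Eqn.rfl.pair hE))

theorem appr_M (h : Sys M r q s x) : ∀ n, ∃ k ∈ K, Eqn n (M * d) k := by
  have key : ∀ n, ∃ k ∈ K, Eqn (3 * n) (M * d) k := by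
    intro n
    induction n with
    | zero => exact ⟨1, one_mem _, Eqn_zero _ _⟩
    | succ n ih => exact FM1_step h ih
  intro n
  obtain ⟨k, hk, hE⟩ := key n
  exact ⟨k, hk, hE.mono (by omega)⟩

end H8AF
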