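import Pool.Agent.Lib.H8AF.Rel2
import Pool.Agent.Lib.H8AF.KF2

/-!
# Chunk FM2 (this file: dense_M) : the families `Γ` and `D n = ⟨Γ, M⟩, ⟨Γ, r⟩, ⟨Γ, q⟩, ...`

PROOF.
* `fam_Γ`: `sec_Γ`, `lift_Γ`, `appr` and `dense` are trivial (`γ = g`, `k = 1`).
* `appr_M`: `∀ n, ∃ k ∈ K, Eqn n (M d) k`, by induction `n → n + 3` (strong induction; `n ≤ 2` follows by
  `Eqn.mono`).  Let `k ∈ K`, `Eqn n (M d) k`.  `u = M (a M a)`, `M = (M d) d`, so
  `Eqn n u (k d a k d a)` and `k d a k d a = k (d a k a d) (d a d a) = κ (a d)^2` with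
  `κ = k * (d a k (d a)⁻¹) ∈ K` (`(d a)^2 = (a d)^2`).  `x = pair u u`:
  `Eqn (n+1) x (pair κ κ * pair ((a d)^2) ((a d)^2))`, in `K` by `K_inl`, `K_inr`, `adad_mem`.
  `s = pair x x`: `Eqn (n+2) s k_s` with `k_s ∈ K`.
  `M d = pair s r * pair 1 b = pair s (r b)`, `r b = pair a q * pair a c = pair 1 (q c)`,
  `q c = pair a M * pair a d = pair 1 (M d)`.  So `M d = pair s (pair 1 (pair 1 (M d)))`.
* `dense_M`: in `D 0 = ⟨Γ, M⟩`, modulo `KD (D 0)`: `a b = b a` (`t ∈ K`), `M b = b M`, so `m = a M a` commutes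
  with `b` modulo `KD`; `(m b)^7 m = m^8 b^7 = b` modulo `KD` (`M_sq`), so `M = c b = d` modulo `KD` (`odd`).
  Then `{g | ∃ γ ∈ Γ, ∃ k ∈ KD, g = γ k}` is a subgroup that contains `Γ` and `M`.
* `fam_M`: `sec`: generators `M = pair s r`, `s = (a r)^8` (`s_eq`); `r = pair a q`; `q = pair a M`; products
  as in `sec_Γ`.  `lift`: `r`: `a M a = pair r s ∈ D 0`; `q`: `a r a = pair q a`; `M`: `a q a = pair M a`.
  `appr`: `r`, `q` are in the closure of `Γ` as well, because `q = pair a M` and `Eqn n M (k d)`, so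
  `Eqn (n+1) q (pair a (k d)) = pair 1 k * c`, hmm: `pair a (k d) = pair 1 k * pair a d = pair 1 k * c ∈ Γ`;
  `r = pair a q`, `Eqn (n+2) r (pair a (pair 1 k * c)) = pair 1 (pair 1 k) * b ∈ Γ`; then closure induction.
-/

namespace H8AF

/-- the generator `M`, `r`, `q`, `M`, ... of `D n` -/
def gn (M r q : T) (n : ℕ) : T := if n % 3 = 0 then M else if n % 3 = 1 then r else q

/-- `D n = ⟨a, b, c, d, gn n⟩` -/
def DM (M r q : T) (n : ℕ) : Subgroup T := Subgroup.closure {a, b, c, d, gn M r q n}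

variable {M r q s x : T}

theorem FM2_norm (E : Subgroup T) : NormBy E (KD E) := by
  intro g hg x hx
  induction hx using Subgroup.closure_induction with
  | mem x hx =>
    obtain ⟨y, hy, k, hk, rfl⟩ := hx
    refine Subgroup.subset_closure ⟨g * y, E.mul_mem hg hy, k, hk, ?_⟩
    group
  | one => simp [one_mem]
  | mul x y _ _ hx hy =>
    have : g * (x * y) * g⁻¹ = (g * x * g⁻¹) * (g * y * g⁻¹) := by group
    rw [this]; exact mul_mem hx hy
  | inv x _ hx =>
    have : g * x⁻¹ * g⁻¹ = (g * x * g⁻¹)⁻¹ := by group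
    rw [this]; exact inv_mem hx

theorem FM2_le : Γ ≤ DM M r q 0 := by
  rw [Γ, DM]
  apply Subgroup.closure_mono
  intro x hx
  simp only [Set.mem_insert_iff, Set.mem_singleton_iff] at hx ⊢
  tauto

theorem FM2_grp {G : Type*} [Group G] {A B C M : G} (hA : A * A = 1) (hB : B * B = 1)
    (ht : A * B * A * B = 1) (hM : M * M = 1) (hMB : M * B = B * M)
    (ho : M = C * ((A * M * A) * B) ^ 7 * (A * M * A)) : M = C * B := by
  have hAi : A⁻¹ = A := inv_eq_of_mul_eq_one_left hA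
  have hBi : B⁻¹ = B := inv_eq_of_mul_eq_one_left hB
  have hAB : A * B = B * A := by
    have h1 : (A * B) * (A * B) = 1 := by rw [← mul_assoc]; exact ht
    have h2 : (A * B)⁻¹ = A * B := inv_eq_of_mul_eq_one_left h1
    rw [← h2, mul_inv_rev, hAi, hBi]
  have hm : Commute (A * M * A) B := by
    change (A * M * A) * B = B * (A * M * A)
    calc (A * M * A) * B = A * M * (A * B) := by simp only [mul_assoc]
      _ = A * (M * B) * A := by rw [hAB]; simp only [mul_assoc]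
      _ = (A * B) * M * A := by rw [hMB]; simp only [mul_assoc]
      _ = B * (A * M * A) := by rw [hAB]; simp only [mul_assoc]
  have hmm : (A * M * A) * (A * M * A) = 1 := by
    calc (A * M * A) * (A * M * A) = A * M * (A * A) * M * A := by simp only [mul_assoc]
      _ = A * (M * M) * A := by rw [hA]; simp only [mul_assoc, one_mul]
      _ = 1 := by rw [hM, mul_one, hA]
  rw [hm.mul_pow, REL2_p7 hmm, REL2_p7 hB] at ho
  calc M = C * ((A * M * A) * B) * (A * M * A) := ho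
    _ = C * (B * ((A * M * A) * (A * M * A))) := by rw [hm.eq]; simp only [mul_assoc]
    _ = C * B := by rw [hmm, mul_one]

theorem FM2_key (h : Sys M r q s x) : d⁻¹ * M ∈ KD (DM M r q 0) := by
  set D := DM M r q 0 with hD
  have hΓ : Γ ≤ D := FM2_le
  have hMD : M ∈ D := Subgroup.subset_closure (by simp [gn])
  haveI hn : ((KD D).subgroupOf D).Normal := by
    refine ⟨fun x hx g => ?_⟩
    rw [Subgroup.mem_subgroupOf] at hx ⊢
    exact FM2_norm D g g.2 x hx
  let φ : D →* D ⧸ ((KD D).subgroupOf D) := QuotientGroup.mk' _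
  let a' : D := ⟨a, hΓ a_mem⟩
  let b' : D := ⟨b, hΓ b_mem⟩
  let c' : D := ⟨c, hΓ c_mem⟩
  let d' : D := ⟨d, hΓ d_mem⟩
  let M' : D := ⟨M, hMD⟩
  have htK : t ∈ KD D := Subgroup.subset_closure ⟨1, D.one_mem, t, t_mem, by simp⟩
  have e1 : φ a' * φ a' = 1 := by
    rw [← map_mul, show a' * a' = 1 from Subtype.ext aa, map_one]
  have e2 : φ b' * φ b' = 1 := by
    rw [← map_mul, show b' * b' = 1 from Subtype.ext bb, map_one]
  have e3 : φ a' * φ b' * φ a' * φ b' = 1 := by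
    rw [← map_mul, ← map_mul, ← map_mul]
    exact (QuotientGroup.eq_one_iff _).2 (Subgroup.mem_subgroupOf.2 htK)
  have e4 : φ M' * φ M' = 1 := by
    rw [← map_mul, show M' * M' = 1 from Subtype.ext (M_sq h), map_one]
  have e5 : φ M' * φ b' = φ b' * φ M' := by
    rw [← map_mul, ← map_mul, show M' * b' = b' * M' from Subtype.ext (comm_Mb h)]
  have e6 : φ M' = φ c' * ((φ a' * φ M' * φ a') * φ b') ^ 7 * (φ a' * φ M' * φ a') := by
    simp only [← map_mul, ← map_pow]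
    congr 1
    exact Subtype.ext (odd h)
  have e7 := FM2_grp e1 e2 e3 e4 e5 e6
  have e8 : φ c' * φ b' = φ d' := by
    rw [← map_mul, show c' * b' = d' from Subtype.ext cb]
  rw [e8] at e7
  have e9 : φ (d'⁻¹ * M') = 1 := by rw [map_mul, map_inv, e7, inv_mul_cancel]
  exact Subgroup.mem_subgroupOf.1 ((QuotientGroup.eq_one_iff _).1 e9)

theorem dense_M (h : Sys M r q s x) :
    ∀ g ∈ DM M r q 0, ∃ γ ∈ Γ, ∃ k ∈ KD (DM M r q 0), g = γ * k := by
  have hΓ : Γ ≤ DM M r q 0 := FM2_le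
  have hN := FM2_norm (DM M r q 0)
  intro g hg
  have hgen : ∀ y ∈ ({a, b, c, d, gn M r q 0} : Set T),
      ∃ γ ∈ Γ, ∃ k ∈ KD (DM M r q 0), y = γ * k := by
    rintro y (rfl | rfl | rfl | rfl | hy)
    · exact ⟨_, a_mem, 1, one_mem _, (mul_one _).symm⟩
    · exact ⟨_, b_mem, 1, one_mem _, (mul_one _).symm⟩
    · exact ⟨_, c_mem, 1, one_mem _, (mul_one _).symm⟩
    · exact ⟨_, d_mem, 1, one_mem _, (mul_one _).symm⟩
    · have hy' : y = M := by
        have : gn M r q 0 = M := if_pos rfl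
        rw [← this]; exact hy
      refine ⟨d, d_mem, d⁻¹ * M, FM2_key h, ?_⟩
      rw [hy', mul_inv_cancel_left]
  have hg' : g ∈ Subgroup.closure ({a, b, c, d, gn M r q 0} : Set T) := hg
  induction hg' using Subgroup.closure_induction with
  | mem y hy => exact hgen y hy
  | one => exact ⟨1, one_mem _, 1, one_mem _, (mul_one _).symm⟩
  | mul y z hy hz ihy ihz =>
    obtain ⟨γ, hγ, k, hk, rfl⟩ := ihy hy
    obtain ⟨γ', hγ', k', hk', rfl⟩ := ihz hz
    refine ⟨γ * γ', mul_mem hγ hγ', (γ'⁻¹ * k * γ'⁻¹⁻¹) * k',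
      mul_mem (hN _ (hΓ (inv_mem hγ')) k hk) hk', ?_⟩
    group
  | inv y hy ihy =>
    obtain ⟨γ, hγ, k, hk, rfl⟩ := ihy hy
    refine ⟨γ⁻¹, inv_mem hγ, γ * k⁻¹ * γ⁻¹, hN _ (hΓ hγ) _ (inv_mem hk), ?_⟩
    group

end H8AF
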