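import Pool.Agent.Lib.H8AF.FM1
import Pool.Agent.Lib.H8AF.FM2

/-!
# Chunk FM3 (this file: fam_M) : the families `Γ` and `D n = ⟨Γ, M⟩, ⟨Γ, r⟩, ⟨Γ, q⟩, ...`

PROOF.
* `fam_Γ`: `sec_Γ`, `lift_Γ`, `appr` and `dense` are trivial (`γ = g`, `k = 1`).
* `appr_M`: `∀ n, ∃ k ∈ K, Eqn n (M d) k`, by induction `n → n + 3` (strong induction; `n ≤ 2` follows by
  `Eqn.mono`).  Let `k ∈ K`, `Eqn n (M d) k`.  `u = M (a M a)`, `M = (M d) d`, so
  `Eqn n u (k d a k d a)` and `k d a k d a = k (d a k a d) (d a d a) = κ (a d)^2` with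
  `κ = k * (d a k (d a)⁻¹) ∈ K` (`(d a)^2 = (a d)^2`).  `x = pair u u`:
  `Eqn (n+1) x (pair κ κ * pair ((a d)^2) ((a d)^2))`, in `K` by `K_inl`, `K_inr`, `adad_mem`.
  `s = pair x x`: `Eqn (n+2) s k_s` with `k_s ∈ K`.
  `M d = pair s r * pair 1 b = pair s (r b)`, `r b = pair a q * pair a c = pair 1 (q c)`,
  `q c = pair a M * pair a d = pair 1 (M d)`.  So `M d = pair s (pair 1 (pair 1 (M d)))`.
* `dense_M`: in `D 0 = ⟨Γ, M⟩`, modulo `KD (D 0)`: `a b = b a` (`t ∈ K`), `M b = b M`, so `m = a M a` commutes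
  with `b` modulo `KD`; `(m b)^7 m = m^8 b^7 = b` modulo `KD` (`M_sq`), so `M = c b = d` modulo `KD` (`odd`).
  Then `{g | ∃ γ ∈ Γ, ∃ k ∈ KD, g = γ k}` is a subgroup that contains `Γ` and `M`.
* `fam_M`: `sec`: generators `M = pair s r`, `s = (a r)^8` (`s_eq`); `r = pair a q`; `q = pair a M`; products
  as in `sec_Γ`.  `lift`: `r`: `a M a = pair r s ∈ D 0`; `q`: `a r a = pair q a`; `M`: `a q a = pair M a`.
  `appr`: `r`, `q` are in the closure of `Γ` as well, because `q = pair a M` and `Eqn n M (k d)`, so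
  `Eqn (n+1) q (pair a (k d)) = pair 1 k * c`, hmm: `pair a (k d) = pair 1 k * pair a d = pair 1 k * c ∈ Γ`;
  `r = pair a q`, `Eqn (n+2) r (pair a (pair 1 k * c)) = pair 1 (pair 1 k) * b ∈ Γ`; then closure induction.
-/

namespace H8AF

variable {M r q s x : T}

theorem FM3_le (n : ℕ) : Γ ≤ DM M r q n := by
  rw [Γ, DM]
  apply Subgroup.closure_mono
  intro y hy
  simp only [Set.mem_insert_iff, Set.mem_singleton_iff] at hy ⊢
  tauto

theorem FM3_gn (n : ℕ) : gn M r q n ∈ DM M r q n :=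
  Subgroup.subset_closure (by simp)

theorem FM3_gn0 {n : ℕ} (h : n % 3 = 0) : gn M r q n = M := if_pos h

theorem FM3_gn1 {n : ℕ} (h : n % 3 = 1) : gn M r q n = r := by
  rw [gn, if_neg (by omega), if_pos h]

theorem FM3_gn2 {n : ℕ} (h : n % 3 = 2) : gn M r q n = q := by
  rw [gn, if_neg (by omega), if_neg (by omega)]

/-- the elements whose sections are in `E` -/
theorem FM3_sec {E D : Subgroup T} (hE : Γ ≤ E) {y : T}
    (hD : D = Subgroup.closure {a, b, c, d, y})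
    (hy : ∃ u ∈ E, ∃ v ∈ E, y = pair u v ∨ y = a * pair u v) :
    ∀ g ∈ D, ∃ u ∈ E, ∃ v ∈ E, g = pair u v ∨ g = a * pair u v := by
  intro g hg
  rw [hD] at hg
  induction hg using Subgroup.closure_induction with
  | mem z hz =>
    rcases hz with rfl | rfl | rfl | rfl | hz
    · exact ⟨1, one_mem _, 1, one_mem _, Or.inr (by rw [pair_one, mul_one])⟩
    · exact ⟨a, hE a_mem, c, hE c_mem, Or.inl b_eq⟩
    · exact ⟨a, hE a_mem, d, hE d_mem, Or.inl c_eq⟩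
    · exact ⟨1, one_mem _, b, hE b_mem, Or.inl d_eq⟩
    · have hz' : z = y := hz
      rw [hz']
      exact hy
  | one => exact ⟨1, one_mem _, 1, one_mem _, Or.inl pair_one.symm⟩
  | mul z w _ _ hz hw =>
    obtain ⟨u, hu, v, hv, h1⟩ := hz
    obtain ⟨u', hu', v', hv', h2⟩ := hw
    rcases h1 with rfl | rfl <;> rcases h2 with rfl | rfl
    · exact ⟨_, mul_mem hu hu', _, mul_mem hv hv', Or.inl (pair_mul _ _ _ _)⟩
    · refine ⟨_, mul_mem hv hu', _, mul_mem hu hv', Or.inr ?_⟩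
      rw [← mul_assoc, ← a_pair, mul_assoc, pair_mul]
    · refine ⟨_, mul_mem hu hu', _, mul_mem hv hv', Or.inr ?_⟩
      rw [mul_assoc, pair_mul]
    · refine ⟨_, mul_mem hv hu', _, mul_mem hu hv', Or.inl ?_⟩
      rw [← mul_assoc, a_pair_a, pair_mul]
  | inv z _ hz =>
    obtain ⟨u, hu, v, hv, h1⟩ := hz
    rcases h1 with rfl | rfl
    · exact ⟨_, inv_mem hu, _, inv_mem hv, Or.inl (pair_inv _ _)⟩
    · refine ⟨_, inv_mem hv, _, inv_mem hu, Or.inr ?_⟩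
      rw [mul_inv_rev, pair_inv, a_inv, a_pair]

theorem FM3_lift {E : Subgroup T} (hE : Γ ≤ E) {y : T} (hy : ∃ h, pair y h ∈ E) :
    ∀ g ∈ Subgroup.closure {a, b, c, d, y}, ∃ h, pair g h ∈ E := by
  intro g hg
  induction hg using Subgroup.closure_induction with
  | mem z hz =>
    rcases hz with rfl | rfl | rfl | rfl | hz
    · exact ⟨c, by rw [← b_eq]; exact hE b_mem⟩
    · refine ⟨1, ?_⟩
      rw [← a_pair_a, ← d_eq]
      exact mul_mem (mul_mem (hE a_mem) (hE d_mem)) (hE a_mem)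
    · refine ⟨a, ?_⟩
      rw [← a_pair_a, ← b_eq]
      exact mul_mem (mul_mem (hE a_mem) (hE b_mem)) (hE a_mem)
    · refine ⟨a, ?_⟩
      rw [← a_pair_a, ← c_eq]
      exact mul_mem (mul_mem (hE a_mem) (hE c_mem)) (hE a_mem)
    · have hz' : z = y := hz
      rw [hz']
      exact hy
  | one => exact ⟨1, by rw [pair_one]; exact one_mem _⟩
  | mul z w _ _ hz hw =>
    obtain ⟨h, hh⟩ := hz
    obtain ⟨h', hh'⟩ := hw
    exact ⟨h * h', by rw [← pair_mul]; exact mul_mem hh hh'⟩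
  | inv z _ hz =>
    obtain ⟨h, hh⟩ := hz
    exact ⟨h⁻¹, by rw [← pair_inv]; exact inv_mem hh⟩

theorem FM3_appr {y : T} (hy : ∀ N, ∃ γ ∈ Γ, Eqn N y γ) :
    ∀ g ∈ Subgroup.closure {a, b, c, d, y}, ∀ N, ∃ γ ∈ Γ, Eqn N g γ := by
  intro g hg
  induction hg using Subgroup.closure_induction with
  | mem z hz =>
    rcases hz with rfl | rfl | rfl | rfl | hz
    · exact fun N => ⟨_, a_mem, Eqn.rfl⟩
    · exact fun N => ⟨_, b_mem, Eqn.rfl⟩
    · exact fun N => ⟨_, c_mem, Eqn.rfl⟩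
    · exact fun N => ⟨_, d_mem, Eqn.rfl⟩
    · have hz' : z = y := hz
      rw [hz']
      exact hy
  | one => exact fun N => ⟨_, one_mem _, Eqn.rfl⟩
  | mul z w _ _ hz hw =>
    intro N
    obtain ⟨γ, h1, h2⟩ := hz N
    obtain ⟨γ', h1', h2'⟩ := hw N
    exact ⟨γ * γ', mul_mem h1 h1', h2.mul h2'⟩
  | inv z _ hz =>
    intro N
    obtain ⟨γ, h1, h2⟩ := hz N
    exact ⟨γ⁻¹, inv_mem h1, h2.inv⟩

theorem FM3_M (h : Sys M r q s x) (N : ℕ) : ∃ k ∈ K, Eqn N M (k * d) := by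
  obtain ⟨k, hk, hE⟩ := appr_M h N
  refine ⟨k, hk, ?_⟩
  have h1 := hE.mul (Eqn.rfl (f := d))
  rwa [mul_assoc, dd, mul_one] at h1

theorem FM3_q (h : Sys M r q s x) (N : ℕ) : ∃ k ∈ K, Eqn N q (pair 1 k * c) := by
  obtain ⟨k, hk, hE⟩ := FM3_M h N
  refine ⟨k, hk, ?_⟩
  rw [c_eq, pair_mul, one_mul, h.hq]
  exact (Eqn.rfl.pair hE).mono (by omega)

theorem FM3_r (h : Sys M r q s x) (N : ℕ) : ∃ k ∈ K, Eqn N r (pair 1 (pair 1 k) * b) := by
  obtain ⟨k, hk, hE⟩ := FM3_q h N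
  refine ⟨k, hk, ?_⟩
  rw [b_eq, pair_mul, one_mul, h.hr]
  exact (Eqn.rfl.pair hE).mono (by omega)

theorem FM3_gn_appr (h : Sys M r q s x) (n N : ℕ) : ∃ γ ∈ Γ, Eqn N (gn M r q n) γ := by
  have h3 : n % 3 = 0 ∨ n % 3 = 1 ∨ n % 3 = 2 := by omega
  rcases h3 with h3 | h3 | h3
  · rw [FM3_gn0 h3]
    obtain ⟨k, hk, hE⟩ := FM3_M h N
    exact ⟨_, mul_mem (K_le_Γ hk) d_mem, hE⟩
  · rw [FM3_gn1 h3]
    obtain ⟨k, hk, hE⟩ := FM3_r h N
    exact ⟨_, mul_mem (K_le_Γ (K_inr _ (K_inr _ hk))) b_mem, hE⟩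
  · rw [FM3_gn2 h3]
    obtain ⟨k, hk, hE⟩ := FM3_q h N
    exact ⟨_, mul_mem (K_le_Γ (K_inr _ hk)) c_mem, hE⟩

theorem fam_M (h : Sys M r q s x) : Fam (DM M r q) where
  gam := fun n => FM3_le n
  sec := by
    intro n
    refine FM3_sec (FM3_le (n + 1)) (y := gn M r q n) rfl ?_
    have h3 : n % 3 = 0 ∨ n % 3 = 1 ∨ n % 3 = 2 := by omega
    have hg := FM3_gn (M := M) (r := r) (q := q) (n + 1)
    rcases h3 with h3 | h3 | h3
    · rw [FM3_gn1 (show (n + 1) % 3 = 1 by omega)] at hg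
      rw [FM3_gn0 h3]
      refine ⟨s, ?_, r, hg, Or.inl h.hM⟩
      rw [s_eq h]
      exact pow_mem (mul_mem (FM3_le (n + 1) a_mem) hg) 8
    · rw [FM3_gn2 (show (n + 1) % 3 = 2 by omega)] at hg
      rw [FM3_gn1 h3]
      exact ⟨a, FM3_le (n + 1) a_mem, q, hg, Or.inl h.hr⟩
    · rw [FM3_gn0 (show (n + 1) % 3 = 0 by omega)] at hg
      rw [FM3_gn2 h3]
      exact ⟨a, FM3_le (n + 1) a_mem, M, hg, Or.inl h.hq⟩
  lift := by
    intro n
    refine FM3_lift (FM3_le n) ?_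
    have h3 : n % 3 = 0 ∨ n % 3 = 1 ∨ n % 3 = 2 := by omega
    have hg := FM3_gn (M := M) (r := r) (q := q) n
    have ha : a ∈ DM M r q n := FM3_le n a_mem
    rcases h3 with h3 | h3 | h3
    · rw [FM3_gn1 (show (n + 1) % 3 = 1 by omega)]
      rw [FM3_gn0 h3] at hg
      refine ⟨s, ?_⟩
      rw [← a_pair_a, ← h.hM]
      exact mul_mem (mul_mem ha hg) ha
    · rw [FM3_gn2 (show (n + 1) % 3 = 2 by omega)]
      rw [FM3_gn1 h3] at hg
      refine ⟨a, ?_⟩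
      rw [← a_pair_a, ← h.hr]
      exact mul_mem (mul_mem ha hg) ha
    · rw [FM3_gn0 (show (n + 1) % 3 = 0 by omega)]
      rw [FM3_gn2 h3] at hg
      refine ⟨a, ?_⟩
      rw [← a_pair_a, ← h.hq]
      exact mul_mem (mul_mem ha hg) ha
  appr := fun n => FM3_appr (FM3_gn_appr h n)
  dense := by
    intro n hn
    have h0 : n % 3 = 0 := Nat.mod_eq_zero_of_dvd hn
    have e : DM M r q n = DM M r q 0 := by
      rw [DM, DM, FM3_gn0 h0, FM3_gn0 (show 0 % 3 = 0 from rfl)]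
    rw [e]
    exact dense_M h

end H8AF
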