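import Pool.Agent.Lib.H8AF.Lim

/-!
# Chunk NI1 (this file: M_notin) : `M` is not in `Γ`, and `Γ` is infinite

PROOF.  `NIn j g` : all sections of level `j` of `g` are in the nucleus `{1, a, b, c, d}`:
`NIn 0 g := g ∈ {1,a,b,c,d}`, `NIn (j+1) g := ∃ u v, NIn j u ∧ NIn j v ∧ (g = pair u v ∨ g = a * pair u v)`.
`NIn j g → NIn (j+1) g` (from the nucleus to the nucleus: `1 = pair 1 1`, `a = a * pair 1 1`, ...).
If `x, y` are in the nucleus then `NIn 1 (x * y)` (25 cases: `a b = a * pair a c`, `b a = a * pair c a`,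
`b c = d`, ...).  By induction on `j`: `NIn j g → NIn j h → NIn (j+1) (g * h)`
(`pair u v * pair u' v' = pair (u u') (v v')`, `pair u v * (a * pair u' v') = a * pair (v u') (u v')`, ...).
So every `g ∈ Γ` satisfies `NIn j g` for some `j` (closure induction, all generators are involutions).
`M = pair s (pair a (pair a M))`: if `NIn (j+3) M` then `NIn j M` (uniqueness of the sections: `pair_inj`;
`pair u v ≠ a * pair u' v'`, `not_Eqn_a_pair`-like).  So if `M ∈ Γ` then `NIn (3 i) M` for a large `i`, hence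
`M ∈ {1, a, b, c, d}`:
`M = a`: no (`pair s r ≠ a * pair 1 1`); `M = 1`: `r = 1`, `pair a q = 1`, `a = 1`, no;
`M = b = pair a c`: `s = a`, but `s = pair x x`, no; `M = c`: same; `M = d = pair 1 b`: `s = 1`, `x = 1`,
`M * (a * M * a) = 1`, `d * (a * d * a) = pair b b ≠ 1`.

`Γ` infinite: `g ↦` choose `h` with `pair g h ∈ Γ` gives an injection `Γ → Γ` whose image does not contain `a`;
a finite set has no such map.
-/

namespace H8AF

/-- all sections of level `j` of `g` are in the nucleus -/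
def NI1_In : ℕ → T → Prop
  | 0, g => g = 1 ∨ g = a ∨ g = b ∨ g = c ∨ g = d
  | j + 1, g => ∃ u v, NI1_In j u ∧ NI1_In j v ∧ (g = pair u v ∨ g = a * pair u v)

theorem NI1_a_eq : a = a * pair 1 1 := by rw [pair_one, mul_one]

theorem NI1_one : NI1_In 0 1 := Or.inl rfl
theorem NI1_a : NI1_In 0 a := Or.inr (Or.inl rfl)
theorem NI1_b : NI1_In 0 b := Or.inr (Or.inr (Or.inl rfl))
theorem NI1_c : NI1_In 0 c := Or.inr (Or.inr (Or.inr (Or.inl rfl)))
theorem NI1_d : NI1_In 0 d := Or.inr (Or.inr (Or.inr (Or.inr rfl)))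

theorem NI1_succ : ∀ (j : ℕ) (g : T), NI1_In j g → NI1_In (j + 1) g := by
  intro j
  induction j with
  | zero =>
    rintro g (rfl | rfl | rfl | rfl | rfl)
    · exact ⟨1, 1, NI1_one, NI1_one, Or.inl pair_one.symm⟩
    · exact ⟨1, 1, NI1_one, NI1_one, Or.inr NI1_a_eq⟩
    · exact ⟨a, c, NI1_a, NI1_c, Or.inl b_eq⟩
    · exact ⟨a, d, NI1_a, NI1_d, Or.inl c_eq⟩
    · exact ⟨1, b, NI1_one, NI1_b, Or.inl d_eq⟩
  | succ j ih =>
    rintro g ⟨u, v, hu, hv, hg⟩
    exact ⟨u, v, ih u hu, ih v hv, hg⟩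

theorem NI1_mono (j k : ℕ) (g : T) (h : NI1_In j g) (hjk : j ≤ k) : NI1_In k g := by
  induction k, hjk using Nat.le_induction with
  | base => exact h
  | succ k _ ih => exact NI1_succ k g ih

theorem NI1_pair_a (u v : T) : pair u v * a = a * pair v u := by rw [a_pair]

theorem NI1_mul0 (x y : T) (hx : NI1_In 0 x) (hy : NI1_In 0 y) : NI1_In 1 (x * y) := by
  have e1 : a * b = a * pair a c := by rw [← b_eq]
  have e2 : a * c = a * pair a d := by rw [← c_eq]
  have e3 : a * d = a * pair 1 b := by rw [← d_eq]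
  have e4 : b * a = a * pair c a := by rw [← NI1_pair_a, ← b_eq]
  have e5 : c * a = a * pair d a := by rw [← NI1_pair_a, ← c_eq]
  have e6 : d * a = a * pair b 1 := by rw [← NI1_pair_a, ← d_eq]
  have z1 := NI1_succ 0 1 NI1_one
  have zb := NI1_succ 0 b NI1_b
  have zc := NI1_succ 0 c NI1_c
  have zd := NI1_succ 0 d NI1_d
  rcases hx with rfl | rfl | rfl | rfl | rfl
  · rw [one_mul]; exact NI1_succ 0 y hy
  · rcases hy with rfl | rfl | rfl | rfl | rfl
    · rw [mul_one]; exact NI1_succ 0 a NI1_a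
    · rw [aa]; exact z1
    · exact ⟨a, c, NI1_a, NI1_c, Or.inr e1⟩
    · exact ⟨a, d, NI1_a, NI1_d, Or.inr e2⟩
    · exact ⟨1, b, NI1_one, NI1_b, Or.inr e3⟩
  · rcases hy with rfl | rfl | rfl | rfl | rfl
    · rw [mul_one]; exact zb
    · exact ⟨c, a, NI1_c, NI1_a, Or.inr e4⟩
    · rw [bb]; exact z1
    · rw [bc]; exact zd
    · rw [bd]; exact zc
  · rcases hy with rfl | rfl | rfl | rfl | rfl
    · rw [mul_one]; exact zc
    · exact ⟨d, a, NI1_d, NI1_a, Or.inr e5⟩
    · rw [cb]; exact zd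
    · rw [cc]; exact z1
    · rw [cd]; exact zb
  · rcases hy with rfl | rfl | rfl | rfl | rfl
    · rw [mul_one]; exact zd
    · exact ⟨b, 1, NI1_b, NI1_one, Or.inr e6⟩
    · rw [db]; exact zc
    · rw [dc]; exact zb
    · rw [dd]; exact z1

theorem NI1_mul : ∀ (j : ℕ) (g h : T), NI1_In j g → NI1_In j h → NI1_In (j + 1) (g * h) := by
  intro j
  induction j with
  | zero => exact NI1_mul0
  | succ j ih =>
    rintro g h ⟨u, v, hu, hv, hg⟩ ⟨u', v', hu', hv', hh⟩
    rcases hg with rfl | rfl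
    · rcases hh with rfl | rfl
      · exact ⟨u * u', v * v', ih u u' hu hu', ih v v' hv hv', Or.inl (pair_mul u v u' v')⟩
      · refine ⟨v * u', u * v', ih v u' hv hu', ih u v' hu hv', Or.inr ?_⟩
        rw [← mul_assoc, NI1_pair_a, mul_assoc, pair_mul]
    · rcases hh with rfl | rfl
      · refine ⟨u * u', v * v', ih u u' hu hu', ih v v' hv hv', Or.inr ?_⟩
        rw [mul_assoc, pair_mul]
      · refine ⟨v * u', u * v', ih v u' hv hu', ih u v' hu hv', Or.inl ?_⟩
        rw [mul_assoc, ← mul_assoc (pair u v), NI1_pair_a, mul_assoc, pair_mul, ← mul_assoc, aa,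
          one_mul]

theorem NI1_inv : ∀ (j : ℕ) (g : T), NI1_In j g → NI1_In j g⁻¹ := by
  intro j
  induction j with
  | zero =>
    rintro g (rfl | rfl | rfl | rfl | rfl)
    · rw [inv_one]; exact NI1_one
    · rw [a_inv]; exact NI1_a
    · rw [b_inv]; exact NI1_b
    · rw [c_inv]; exact NI1_c
    · rw [d_inv]; exact NI1_d
  | succ j ih =>
    rintro g ⟨u, v, hu, hv, rfl | rfl⟩
    · exact ⟨u⁻¹, v⁻¹, ih u hu, ih v hv, Or.inl (pair_inv u v)⟩
    · refine ⟨v⁻¹, u⁻¹, ih v hv, ih u hu, Or.inr ?_⟩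
      rw [mul_inv_rev, pair_inv, a_inv, NI1_pair_a]

theorem NI1_exists (g : T) (hg : g ∈ Γ) : ∃ j, NI1_In j g := by
  induction hg using Subgroup.closure_induction with
  | mem x hx =>
    simp only [Set.mem_insert_iff, Set.mem_singleton_iff] at hx
    exact ⟨0, Or.inr hx⟩
  | one => exact ⟨0, NI1_one⟩
  | mul x y _ _ hx hy =>
    obtain ⟨j, hj⟩ := hx
    obtain ⟨k, hk⟩ := hy
    exact ⟨max j k + 1, NI1_mul _ _ _ (NI1_mono j _ x hj (le_max_left _ _))
      (NI1_mono k _ y hk (le_max_right _ _))⟩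
  | inv x _ hx =>
    obtain ⟨j, hj⟩ := hx
    exact ⟨j, NI1_inv j x hj⟩

theorem NI1_pair_ne (u v u' v' : T) : pair u v ≠ a * pair u' v' := by
  intro h
  have := congrArg (fun f : T => f [false]) h
  simp at this

theorem NI1_pair_ne_a (u v : T) : pair u v ≠ a := by
  rw [NI1_a_eq]
  exact NI1_pair_ne u v 1 1

theorem NI1_right (j : ℕ) (u v : T) (h : NI1_In (j + 1) (pair u v)) : NI1_In j v := by
  obtain ⟨u', v', -, hv, h | h⟩ := h
  · rw [(pair_inj h).2]; exact hv
  · exact (NI1_pair_ne _ _ _ _ h).elim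

theorem NI1_a_ne_one : a ≠ 1 := by
  intro h
  rw [← pair_one] at h
  exact NI1_pair_ne_a 1 1 h.symm

theorem NI1_b_ne_one : b ≠ 1 := by
  intro h
  rw [b_eq, ← pair_one] at h
  exact NI1_a_ne_one (pair_inj h).1

theorem M_notin {M r q s x : T} (h : Sys M r q s x) : M ∉ Γ := by
  obtain ⟨hM, hr, hq, hs, hx⟩ := h
  intro hMΓ
  obtain ⟨j, hj⟩ := NI1_exists M hMΓ
  have h1 : ∀ k, NI1_In (3 * k) M → NI1_In 0 M := by
    intro k
    induction k with
    | zero => exact fun h => h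
    | succ k ih =>
      intro h
      refine ih ?_
      rw [hM] at h
      have h2 : NI1_In (3 * k + 2) r := NI1_right (3 * k + 2) s r h
      rw [hr] at h2
      have h3 : NI1_In (3 * k + 1) q := NI1_right (3 * k + 1) a q h2
      rw [hq] at h3
      exact NI1_right (3 * k) a M h3
  have h0 := h1 j (NI1_mono j (3 * j) M hj (by omega))
  rcases h0 with h | h | h | h | h
  · rw [hM, ← pair_one] at h
    have h2 := (pair_inj h).2
    rw [hr, ← pair_one] at h2
    exact NI1_a_ne_one (pair_inj h2).1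
  · rw [hM] at h
    exact NI1_pair_ne_a _ _ h
  · rw [hM, b_eq] at h
    have h2 := (pair_inj h).1
    rw [hs] at h2
    exact NI1_pair_ne_a _ _ h2
  · rw [hM, c_eq] at h
    have h2 := (pair_inj h).1
    rw [hs] at h2
    exact NI1_pair_ne_a _ _ h2
  · have h' := h
    rw [hM, d_eq] at h'
    have h2 := (pair_inj h').1
    rw [hs, ← pair_one] at h2
    have h3 := (pair_inj h2).1
    rw [hx, ← pair_one] at h3
    have h4 := (pair_inj h3).1
    rw [h, d_eq, a_pair_a, pair_mul, one_mul, mul_one, ← pair_one] at h4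
    exact NI1_b_ne_one (pair_inj h4).1

end H8AF
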