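import Pool.Agent.Lib.H8AF.KF1

/-!
# Chunk NI2 (this file: Γ_infinite) : `M` is not in `Γ`, and `Γ` is infinite

PROOF.  `NIn j g` : all sections of level `j` of `g` are in the nucleus `{1, a, b, c, d}`:
`NIn 0 g := g ∈ {1,a,b,c,d}`, `NIn (j+1) g := ∃ u v, NIn j u ∧ NIn j v ∧ (g = pair u v ∨ g = a * pair u v)`.
`NIn j g → NIn (j+1) g` (from the nucleus to the nucleus: `1 = pair 1 1`, `a = a * pair 1 1`, ...).
If `x, y` are in the nucleus then `NIn 1 (x * y)` (25 cases: `a b = a * pair a c`, `b a = a * pair c a`,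
`b c = d`, ...).  By induction on `j`: `NIn j g → NIn j h → NIn (j+1) (g * h)`
(`pair u v * pair u' v' = pair (u u') (v v')`, `pair u v * (a * pair u' v') = a * pair (v u') (u v')`, ...).
So every `g ∈ Γ` satisfies `NIn j g` for some `j` (closure induction, all generators are involutions).
`M = pair s (pair a (pair a M))`: if `NIn (j+3) M` then `NIn j M` (uniqueness of the sections: `pair_inj`;
`pair u v ≠ a * pair u' v'`, `not_Eqn_a_pair`-like).  So if `M ∈ Γ` then `NIn (3 i) M` for a large `i`, hence
`M ∈ {1, a, b, c, d}`: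
`M = a`: no (`pair s r ≠ a * pair 1 1`); `M = 1`: `r = 1`, `pair a q = 1`, `a = 1`, no;
`M = b = pair a c`: `s = a`, but `s = pair x x`, no; `M = c`: same; `M = d = pair 1 b`: `s = 1`, `x = 1`,
`M * (a * M * a) = 1`, `d * (a * d * a) = pair b b ≠ 1`.

`Γ` infinite: `g ↦` choose `h` with `pair g h ∈ Γ` gives an injection `Γ → Γ` whose image does not contain `a`;
a finite set has no such map.
-/

namespace H8AF

theorem Γ_infinite : Infinite Γ := by
  by_contra hfin
  rw [not_infinite_iff_finite] at hfin
  choose f hf1 hf2 using lift_Γ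
  let F : Γ → Γ := fun g => ⟨pair g.1 (f g.1 g.2), hf2 g.1 g.2⟩
  have hinj : Function.Injective F := by
    intro g g' h
    exact Subtype.ext (pair_inj (congrArg Subtype.val h)).1
  obtain ⟨g, hg⟩ := (Finite.injective_iff_surjective.1 hinj) ⟨a, a_mem⟩
  have h1 : pair g.1 (f g.1 g.2) = a := congrArg Subtype.val hg
  have := congrArg (fun k : T => k [false]) h1
  simp at this

end H8AF
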