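import Pool.Agent.Lib.H8AF.Stmt

/-!
# Chunk TR : from the tree to the profinite completion (abstract)

`G` a group, `j : G → X` an injective homomorphism, `π n : X → P n` homomorphisms to finite groups,
`D = ⟨j(G), M⟩`.  Under the hypotheses below there is an injective homomorphism `Φ` of `D` into the profinite
completion of `G` (Mathlib: `ProfiniteGrp.ProfiniteCompletion.completion (GrpCat.of G)`, the limit of
`G ⧸ N`, `N : FiniteIndexNormalSubgroup G`) with `Φ (j γ) = etaFn γ`, and `⟨etaFn(G), Φ M⟩ = Φ(D)` has the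
congruence subgroup property.

PROOF.  `Φ x` at `N`: by `cspG` choose `n` with `π n (j γ) = 1 → γ ∈ N`, by `appr` choose `γ` with
`π n (j γ) = π n x`; the class `γ N` does not depend on the choices (`mono`: pass to a larger `n`).
It is a homomorphism and compatible with `N ≤ N'`.  `Φ (j γ) = etaFn γ`.  Injective: if `Φ x = 1`, take
`N = {γ | π n (j γ) = 1}` (finite index since `P n` is finite): the element `γ` chosen for a large level `m ≥ n` is
in `N`, so `π n x = π n (j γ) = 1`; for all `n`, so `x = 1` by `sep`.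
`Φ M ∉ range etaFn`: otherwise `Φ M = Φ (j γ)`, `M = j γ`.
CSP: `Δ = Φ(D)` (image of a closure).  Let `N` be a normal subgroup of finite index in `Δ`, `N' ≤ D` its
preimage (normal, finite index), `n` from `cspD`.  Let `U n = {γ | π n (j γ) = 1}` and
`p : completion → G ⧸ U n` the projection (continuous, discrete finite target).  `V = p⁻¹ (p (Φ N'))`:
open; a subgroup; normal because `p (Φ N')` is normalised by `p (Φ D) = G ⧸ U n`.
`V ∩ Δ = N`: if `p (Φ x) = p (Φ y)` with `y ∈ N'` then `π n x = π n y` (shown as above), so `x y⁻¹ ∈ N'`.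
-/

namespace H8AF

open CategoryTheory

section TR

variable {G X : Type} [Group G] [Group X] {P : ℕ → Type} [∀ n, Group (P n)]
  [∀ n, Finite (P n)] (π : ∀ n, X →* P n) (j : G →* X)

/-- The `n`-th congruence subgroup of `G`. -/
private def TR_U (n : ℕ) : FiniteIndexNormalSubgroup G where
  toSubgroup := ((π n).comp j).ker
  isNormal' := inferInstance
  isFiniteIndex' := by
    have : Finite (G ⧸ ((π n).comp j).ker) :=
      Finite.of_injective _ (QuotientGroup.kerLift_injective ((π n).comp j))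
    exact Subgroup.finiteIndex_of_finite_quotient

private theorem TR_mem_U (n : ℕ) (γ : G) : γ ∈ (TR_U π j n).toSubgroup ↔ π n (j γ) = 1 := Iff.rfl

omit [∀ n, Finite (P n)] in
private theorem TR_eq_of_mono (mono : ∀ m n, m ≤ n → ∀ x, π n x = 1 → π m x = 1) {m n : ℕ}
    (hmn : m ≤ n) {x y : X} (h : π n x = π n y) : π m x = π m y := by
  have h1 : π n (x * y⁻¹) = 1 := by rw [map_mul, map_inv, h, mul_inv_cancel]
  have h2 := mono m n hmn _ h1
  rw [map_mul, map_inv] at h2
  exact mul_inv_eq_one.mp h2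

end TR

theorem transfer {G X : Type} [Group G] [Group X] (P : ℕ → Type) [∀ n, Group (P n)]
    [∀ n, Finite (P n)] (π : ∀ n, X →* P n) (j : G →* X) (hj : Function.Injective j)
    (M : X) (hM : M ∉ Set.range j) (D : Subgroup X)
    (hD : D = Subgroup.closure (Set.range j ∪ {M}))
    (mono : ∀ m n, m ≤ n → ∀ x, π n x = 1 → π m x = 1)
    (sep : ∀ x, (∀ n, π n x = 1) → x = 1)
    (appr : ∀ x ∈ D, ∀ n, ∃ γ, π n (j γ) = π n x)
    (cspG : ∀ N : Subgroup G, N.Normal → N.FiniteIndex → ∃ n, ∀ γ, π n (j γ) = 1 → γ ∈ N)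
    (cspD : ∀ N : Subgroup D, N.Normal → N.FiniteIndex → ∃ n, ∀ δ : D, π n δ = 1 → δ ∈ N) :
    ∃ Φ : D →* Comp G, Function.Injective Φ ∧
      (∀ (γ : G) (h : j γ ∈ D), Φ ⟨j γ, h⟩ = eta γ) ∧
      ∀ h : M ∈ D, Φ ⟨M, h⟩ ∉ Set.range (eta (G := G)) ∧
        HasCSP (Subgroup.closure (Set.range (eta (G := G)) ∪ {Φ ⟨M, h⟩})) := by
  classical
  have nN : ∀ N : FiniteIndexNormalSubgroup G, ∃ n, ∀ γ, π n (j γ) = 1 → γ ∈ N.toSubgroup :=
    fun N => cspG N.toSubgroup N.isNormal' N.isFiniteIndex'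
  choose nn hnn using nN
  -- classes
  have hcl : ∀ (N : FiniteIndexNormalSubgroup G) (x : D), ∃ q : G ⧸ N.toSubgroup,
      ∀ m, nn N ≤ m → ∀ γ, π m (j γ) = π m x → (QuotientGroup.mk γ : G ⧸ N.toSubgroup) = q := by
    intro N x
    obtain ⟨γ0, h0⟩ := appr x x.2 (nn N)
    refine ⟨QuotientGroup.mk γ0, fun m hm γ hγ => ?_⟩
    have h1 := TR_eq_of_mono π mono hm hγ
    rw [QuotientGroup.eq]
    apply hnn N
    rw [map_mul, map_mul, map_inv, map_inv, h1, h0, inv_mul_cancel]
  choose φ hφ using hcl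
  have hφmul : ∀ N x y, φ N (x * y) = φ N x * φ N y := by
    intro N x y
    obtain ⟨γ, hγ⟩ := appr x x.2 (nn N)
    obtain ⟨γ', hγ'⟩ := appr y y.2 (nn N)
    have h1 := hφ N (x * y) (nn N) le_rfl (γ * γ') (by
      rw [map_mul, map_mul, hγ, hγ', Subgroup.coe_mul, map_mul])
    rw [← h1, ← hφ N x (nn N) le_rfl γ hγ, ← hφ N y (nn N) le_rfl γ' hγ']
    rfl
  have hφcomp : ∀ (N N' : FiniteIndexNormalSubgroup G) (h : N ≤ N') (x : D),
      QuotientGroup.map N.toSubgroup N'.toSubgroup (MonoidHom.id _) h (φ N x) = φ N' x := by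
    intro N N' h x
    obtain ⟨γ, hγ⟩ := appr x x.2 (max (nn N) (nn N'))
    rw [← hφ N x _ (le_max_left _ _) γ hγ, ← hφ N' x _ (le_max_right _ _) γ hγ]
    rfl
  let Φ : D →* Comp G :=
    { toFun := fun x => ⟨fun N => φ N x, fun N N' f => hφcomp N N' f.le x⟩
      map_one' := by
        refine Subtype.ext (funext fun N => ?_)
        have := hφmul N 1 1
        rw [mul_one] at this
        exact (left_eq_mul.mp this)
      map_mul' := fun x y => Subtype.ext (funext fun N => hφmul N x y) }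
  have hval : ∀ (x : D) (N : FiniteIndexNormalSubgroup G), (Φ x).val N = φ N x := fun x N => rfl
  -- kernel of the projections
  have hker : ∀ (n : ℕ) (x : D), φ (TR_U π j n) x = 1 → π n x = 1 := by
    intro n x h
    obtain ⟨γ, hγ⟩ := appr x x.2 (max (nn (TR_U π j n)) n)
    have h1 := hφ _ x _ (le_max_left _ _) γ hγ
    rw [h] at h1
    have h2 : γ ∈ (TR_U π j n).toSubgroup := (QuotientGroup.eq_one_iff γ).mp h1
    rw [TR_mem_U] at h2
    rw [← TR_eq_of_mono π mono (le_max_right _ _) hγ]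
    exact h2
  have hinj : Function.Injective Φ := by
    rw [injective_iff_map_eq_one]
    intro x hx
    apply Subtype.ext
    apply sep
    intro n
    apply hker n x
    rw [← hval, hx]
    rfl
  have heta : ∀ (γ : G) (h : j γ ∈ D), Φ ⟨j γ, h⟩ = eta γ := by
    intro γ h
    refine Subtype.ext (funext fun N => ?_)
    exact (hφ N ⟨j γ, h⟩ _ le_rfl γ rfl).symm
  have hjD : ∀ γ, j γ ∈ D := fun γ => by
    rw [hD]
    exact Subgroup.subset_closure (Or.inl ⟨γ, rfl⟩)
  refine ⟨Φ, hinj, heta, fun hMD => ⟨?_, ?_⟩⟩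
  · rintro ⟨γ, hγ⟩
    rw [← heta γ (hjD γ)] at hγ
    have h1 := hinj hγ
    exact hM ⟨γ, congrArg Subtype.val h1⟩
  -- the closure is the range
  have hrange : Subgroup.closure (Set.range (eta (G := G)) ∪ {Φ ⟨M, hMD⟩}) = Φ.range := by
    apply le_antisymm
    · rw [Subgroup.closure_le]
      rintro x (⟨γ, rfl⟩ | hx)
      · exact ⟨⟨j γ, hjD γ⟩, heta γ _⟩
      · rw [Set.mem_singleton_iff] at hx
        exact ⟨⟨M, hMD⟩, hx.symm⟩
    · rintro _ ⟨⟨x, hx⟩, rfl⟩
      have hx' := hx
      rw [hD] at hx'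
      have key : ∀ h : x ∈ D, Φ ⟨x, h⟩ ∈
          Subgroup.closure (Set.range (eta (G := G)) ∪ {Φ ⟨M, hMD⟩}) := by
        induction hx' using Subgroup.closure_induction with
        | mem y hy =>
          intro h
          rcases hy with ⟨γ, rfl⟩ | hy
          · rw [heta]
            exact Subgroup.subset_closure (Or.inl ⟨γ, rfl⟩)
          · rw [Set.mem_singleton_iff] at hy
            subst hy
            exact Subgroup.subset_closure (Or.inr rfl)
        | one =>
          intro h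
          have : Φ ⟨1, h⟩ = 1 := map_one Φ
          rw [this]
          exact one_mem _
        | mul y z hy hz ihy ihz =>
          intro h
          have hy' : y ∈ D := by rw [hD]; exact hy
          have hz' : z ∈ D := by rw [hD]; exact hz
          have : Φ ⟨y * z, h⟩ = Φ ⟨y, hy'⟩ * Φ ⟨z, hz'⟩ := map_mul Φ ⟨y, hy'⟩ ⟨z, hz'⟩
          rw [this]
          exact mul_mem (ihy hy' hy') (ihz hz' hz')
        | inv y hy ihy =>
          intro h
          have hy' : y ∈ D := by rw [hD]; exact hy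
          have : Φ ⟨y⁻¹, h⟩ = (Φ ⟨y, hy'⟩)⁻¹ := map_inv Φ ⟨y, hy'⟩
          rw [this]
          exact inv_mem (ihy hy' hy')
      exact key hx
  rw [hrange]
  intro N hNn hNf
  -- pull back
  let N' : Subgroup D := N.comap Φ.rangeRestrict
  have hN'n : N'.Normal := hNn.comap _
  have hN'f : N'.FiniteIndex := by
    refine ⟨?_⟩
    rw [Subgroup.index_comap_of_surjective _ Φ.rangeRestrict_surjective]
    exact hNf.index_ne_zero
  obtain ⟨n, hn⟩ := cspD N' hN'n hN'f
  -- the projection to the finite quotient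
  let p : Comp G →* G ⧸ (TR_U π j n).toSubgroup :=
    { toFun := fun x => x.val (TR_U π j n)
      map_one' := rfl
      map_mul' := fun x y => rfl }
  have hp : ∀ x, p (Φ x) = φ (TR_U π j n) x := fun x => rfl
  have hkerp : ∀ x y, p (Φ x) = p (Φ y) → π n x = π n y := by
    intro x y h
    have h1 : p (Φ (x * y⁻¹)) = 1 := by
      rw [map_mul, map_mul, h, map_inv, map_inv, mul_inv_cancel]
    have h2 := hker n _ h1
    rw [Subgroup.coe_mul, Subgroup.coe_inv, map_mul, map_inv] at h2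
    exact mul_inv_eq_one.mp h2
  refine ⟨((N'.map Φ).map p).comap p, ?_, ?_, ?_⟩
  · refine ⟨fun v hv g => ?_⟩
    rw [Subgroup.mem_comap] at hv ⊢
    obtain ⟨_, ⟨y, hy, rfl⟩, hyv⟩ := hv
    obtain ⟨γ, hγ⟩ := QuotientGroup.mk_surjective (p g)
    have h1 : p g = p (Φ ⟨j γ, hjD γ⟩) := by
      rw [heta, ← hγ]
      rfl
    refine ⟨Φ (⟨j γ, hjD γ⟩ * y * ⟨j γ, hjD γ⟩⁻¹), ⟨_, hN'n.conj_mem y hy _, rfl⟩, ?_⟩
    rw [map_mul, map_mul, map_mul, map_mul, map_mul, map_mul, map_inv, map_inv, map_inv, hyv, ← h1]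
  · have hcont : Continuous fun x : Comp G => x.val (TR_U π j n) :=
      (continuous_apply (TR_U π j n)).comp continuous_subtype_val
    have hop : ∀ s : Set ((ProfiniteGrp.ProfiniteCompletion.diagram (GrpCat.of G)).obj
        (TR_U π j n)), IsOpen s := fun s => trivial
    exact (hop (((N'.map Φ).map p : Subgroup _) : Set (G ⧸ (TR_U π j n).toSubgroup))).preimage hcont
  · ext ⟨δ, hδ⟩
    obtain ⟨x, rfl⟩ := hδ
    rw [Subgroup.mem_subgroupOf, Subgroup.mem_comap]
    constructor
    · intro h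
      exact ⟨Φ x, ⟨x, h, rfl⟩, rfl⟩
    · rintro ⟨_, ⟨y, hy, rfl⟩, hxy⟩
      have h1 := hkerp _ _ hxy
      have h2 : x⁻¹ * y ∈ N' := by
        apply hn
        rw [Subgroup.coe_mul, Subgroup.coe_inv, map_mul, map_inv, h1, inv_mul_cancel]
      have h3 : x ∈ N' := by
        have h4 := N'.mul_mem hy (N'.inv_mem h2)
        rwa [mul_inv_rev, inv_inv, ← mul_assoc, mul_inv_cancel, one_mul] at h4
      exact h3

end H8AF
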