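import Pool.Agent.Lib.H8AF.CE
import Pool.Agent.Lib.H8AF.FM3
import Pool.Agent.Lib.H8AF.NI1
import Pool.Agent.Lib.H8AF.NI2
import Pool.Agent.Lib.H8AF.Transfer

/-! # Assembly -/

namespace H8AF

open Equiv

theorem Gam_le_Tree : Gam ≤ Tree := by
  rw [Gam, Subgroup.closure_le]
  rintro x (rfl | rfl | rfl | rfl)
  · exact a.2
  · exact b.2
  · exact c.2
  · exact d.2

/-- the inclusion of the Grigorchuk group in `T` -/
def j : Gam →* T := Subgroup.inclusion Gam_le_Tree

theorem j_inj : Function.Injective j := Subgroup.inclusion_injective Gam_le_Tree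

theorem Γ_map : Γ.map Tree.subtype = Gam := by
  rw [Γ, Gam, MonoidHom.map_closure]
  congr 1
  ext x
  simp only [Set.mem_image, Set.mem_insert_iff, Set.mem_singleton_iff]
  constructor
  · rintro ⟨y, (rfl | rfl | rfl | rfl), rfl⟩
    · exact Or.inl rfl
    · exact Or.inr (Or.inl rfl)
    · exact Or.inr (Or.inr (Or.inl rfl))
    · exact Or.inr (Or.inr (Or.inr rfl))
  · rintro (rfl | rfl | rfl | rfl)
    · exact ⟨a, by simp, rfl⟩
    · exact ⟨b, by simp, rfl⟩
    · exact ⟨c, by simp, rfl⟩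
    · exact ⟨d, by simp, rfl⟩

theorem mem_range_j {x : T} : x ∈ Set.range j ↔ x ∈ Γ := by
  constructor
  · rintro ⟨g, rfl⟩
    have h1 : (g : Perm (List Bool)) ∈ Γ.map Tree.subtype := by rw [Γ_map]; exact g.2
    obtain ⟨y, hy, e⟩ := h1
    have : y = j g := Subtype.ext e
    rwa [← this]
  · intro h
    have h1 : (x : Perm (List Bool)) ∈ Gam := by rw [← Γ_map]; exact ⟨x, h, rfl⟩
    exact ⟨⟨x, h1⟩, rfl⟩

theorem Γ_le_DM (M r q : T) (n : ℕ) : Γ ≤ DM M r q n := by
  rw [Γ, DM]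
  apply Subgroup.closure_mono
  intro x hx
  simp only [Set.mem_insert_iff, Set.mem_singleton_iff] at hx ⊢
  tauto

theorem DM_zero (M r q : T) : DM M r q 0 = Subgroup.closure (Set.range j ∪ {M}) := by
  apply le_antisymm
  · rw [DM, Subgroup.closure_le]
    intro x hx
    simp only [Set.mem_insert_iff, Set.mem_singleton_iff] at hx
    rcases hx with rfl | rfl | rfl | rfl | rfl
    · exact Subgroup.subset_closure (Or.inl (mem_range_j.2 a_mem))
    · exact Subgroup.subset_closure (Or.inl (mem_range_j.2 b_mem))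
    · exact Subgroup.subset_closure (Or.inl (mem_range_j.2 c_mem))
    · exact Subgroup.subset_closure (Or.inl (mem_range_j.2 d_mem))
    · exact Subgroup.subset_closure (Or.inr (by simp [gn]))
  · rw [Subgroup.closure_le]
    rintro x (hx | hx)
    · exact Γ_le_DM M r q 0 (mem_range_j.1 hx)
    · rw [Set.mem_singleton_iff] at hx
      subst hx
      exact Subgroup.subset_closure (by simp [gn])

theorem exists_ne_one {G : Type} [Group G] [Infinite G] (N : Subgroup G) [N.FiniteIndex] :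
    ∃ g ∈ N, g ≠ 1 := by
  by_contra hcon
  push_neg at hcon
  have hN : N = ⊥ := by
    rw [Subgroup.eq_bot_iff_forall]
    exact hcon
  have h1 : N.index ≠ 0 := Subgroup.FiniteIndex.index_ne_zero
  rw [hN, Subgroup.index_bot] at h1
  exact h1 (Nat.card_eq_zero_of_infinite)

theorem main : ∃ g : Comp Gam, g ∉ Set.range (eta (G := Gam)) ∧
    HasCSP (Subgroup.closure (Set.range (eta (G := Gam)) ∪ {g})) ∧
    ∃ a' b' c' : Gam, (a' : Perm (List Bool)) = pa ∧ (b' : Perm (List Bool)) = pb ∧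
      (c' : Perm (List Bool)) = pc ∧ g * g = 1 ∧
      g = eta c' * ((eta a' * g * eta a') * eta b') ^ 7 * (eta a' * g * eta a') := by
  obtain ⟨M, r, q, s, x, h⟩ := exists_M
  have hG : Infinite Γ := Γ_infinite
  have hfM := fam_M h
  have hD0 := DM_zero M r q
  have hMD : M ∈ DM M r q 0 := Subgroup.subset_closure (by simp [gn])
  haveI : Infinite Gam := by
    refine Infinite.of_injective (fun x : Γ => (⟨(x : T).1, by
      rw [← Γ_map]; exact ⟨x, x.2, rfl⟩⟩ : Gam)) ?_
    intro x y hxy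
    have := congrArg (fun z : Gam => (z : Perm (List Bool))) hxy
    exact Subtype.ext (Subtype.ext this)
  haveI : Infinite (DM M r q 0) := by
    refine Infinite.of_injective (fun x : Γ => (⟨x, Γ_le_DM M r q 0 x.2⟩ : DM M r q 0)) ?_
    intro x y hxy
    have := congrArg (fun z : DM M r q 0 => (z : T)) hxy
    exact Subtype.ext this
  obtain ⟨Φ, hΦ, hj, hM⟩ := transfer (G := Gam) (X := T) (fun n => Perm (List.Vector Bool n)) ρ j j_inj
    M (fun hM => M_notin h (mem_range_j.1 hM)) (DM M r q 0) hD0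
    (by
      intro m n hmn x hx
      have : Eqn n x 1 := Eqn_iff.2 (by rw [hx, map_one])
      have := this.mono hmn
      rw [Eqn_iff, map_one] at this
      exact this)
    (by
      intro x hx
      apply eq_of_Eqn
      intro n
      rw [Eqn_iff, map_one]; exact hx n)
    (by
      intro x hx n
      obtain ⟨γ, hγ, e⟩ := hfM.appr 0 x hx n
      obtain ⟨g, rfl⟩ := mem_range_j.2 hγ
      exact ⟨g, (Eqn_iff.1 e).symm⟩)
    (by
      intro N hN hN'
      obtain ⟨n, hn⟩ := csp (D := fun _ => Γ) fam_Γ (N := N.map j)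
        (by
          rintro _ ⟨y, hy, rfl⟩
          exact mem_range_j.1 ⟨y, rfl⟩)
        (by
          rintro g hg _ ⟨y, hy, rfl⟩
          obtain ⟨g, rfl⟩ := mem_range_j.2 hg
          exact ⟨g * y * g⁻¹, hN.conj_mem y hy g, by simp⟩)
        (by
          obtain ⟨g, hg, hg1⟩ := exists_ne_one N
          exact ⟨j g, ⟨g, hg, rfl⟩, fun e => hg1 (j_inj (by rw [e, map_one]))⟩)
      refine ⟨n, fun γ hγ => ?_⟩
      obtain ⟨y, hy, e⟩ := hn (j γ) (mem_range_j.1 ⟨γ, rfl⟩) (Eqn_iff.2 (by rw [hγ, map_one]))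
      rwa [← j_inj e])
    (by
      intro N hN hN'
      obtain ⟨n, hn⟩ := csp (D := DM M r q) hfM (N := N.map (DM M r q 0).subtype)
        (by
          rintro _ ⟨y, hy, rfl⟩
          exact y.2)
        (by
          rintro g hg _ ⟨y, hy, rfl⟩
          exact ⟨⟨g, hg⟩ * y * ⟨g, hg⟩⁻¹, hN.conj_mem y hy _, by simp⟩)
        (by
          obtain ⟨g, hg, hg1⟩ := exists_ne_one N
          exact ⟨g, ⟨g, hg, rfl⟩, fun e => hg1 (Subtype.ext e)⟩)
      refine ⟨n, fun δ hδ => ?_⟩
      obtain ⟨y, hy, e⟩ := hn δ δ.2 (Eqn_iff.2 (by rw [hδ, map_one]))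
      have : y = δ := Subtype.ext e
      rwa [← this])
  have hmem : ∀ γ : Gam, j γ ∈ DM M r q 0 := fun γ => Γ_le_DM M r q 0 (mem_range_j.1 ⟨γ, rfl⟩)
  refine ⟨Φ ⟨M, hMD⟩, (hM hMD).1, (hM hMD).2, ⟨pa, Subgroup.subset_closure (by simp)⟩,
    ⟨pb, Subgroup.subset_closure (by simp)⟩, ⟨pc, Subgroup.subset_closure (by simp)⟩,
    rfl, rfl, rfl, ?_, ?_⟩
  · rw [← map_mul]
    have : (⟨M, hMD⟩ * ⟨M, hMD⟩ : DM M r q 0) = 1 := Subtype.ext (M_sq h)
    rw [this, map_one]
  · rw [← hj _ (hmem _), ← hj _ (hmem _), ← hj _ (hmem _)]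
    simp only [← map_mul, ← map_pow]
    congr 1
    exact Subtype.ext (odd h)

end H8AF
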