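import Pool.Agent.Lib.H8AF.KF2

/-!
# Chunk K5 : `Γ ∩ St(3) ≤ K`

PROOF.  (1) Every `γ ∈ Γ` is `k * ((a d)^i * a^j * b^l)` with `k ∈ K`, natural numbers `i j l`:
closure induction on the right (`Subgroup.closure_induction_right` or: the set of such elements is closed
under right multiplication by `a`, `b`, `c = b d`, `d`, all involutions).
Modulo `K`: `b` commutes with `a` and with `d`; `(a d)^4 = 1`, `d = a (a d)`, `a (a d) a = (a d)⁻¹ = (a d)^3`,
so `(a d)^i * d = (a d)^(i+3) * a` and `(a d)^i * a * d = (a d)^(i+1)`.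
(2) Let `σ n g = Equiv.Perm.sign (ρ n g)`.  `σ (n+1) (pair u v) = σ n u * σ n v`, `σ 1 a = -1`,
`σ (n+2) a = 1`.  Hence: `σ 1` is `-1` on `a` and `1` on `b, c, d`; `σ 2` is `-1` on `b, c` and `1` on `a, d`;
`σ 3` is `-1` on `b, d` and `1` on `a, c`.  (Any other way to get three homomorphisms `Γ → ±1` with these
values that only depend on the action on level 3 is fine.)
On `K` they are trivial (`t` is a commutator).
(3) For `k ∈ K`, `k = pair k0 k1` with `σ 1 k0 * σ 2 k0 = 1` (closure induction; the statement for both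
`k0` and `k1`; `t = pair (c a) (a c)`; conjugation by `pair`s does not change the signs, conjugation by `a`
swaps).
(4) Let `γ ∈ Γ`, `Eqn 3 γ 1`, `γ = k (a d)^i a^j b^l`.  Then `σ 1 γ = (-1)^(i+j)`, `σ 2 γ = (-1)^l`,
`σ 3 γ = (-1)^(i+l)` are all `1`, so `i, j, l` are even, and `γ = k` or `γ = k (a d)^2`.  In the second case
`(a d)^2 = pair b b`, `γ = pair (k0 b) (k1 b)`, `Eqn 2 (k0 b) 1`, so `σ 1 (k0 b) σ 2 (k0 b) = 1`,
but it is `σ 1 b * σ 2 b = -1`.
-/

namespace H8AF

/-- the sign of the action on level `n` -/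
noncomputable def K5s (n : ℕ) : T →* ℤˣ := Equiv.Perm.sign.comp (ρ n)

theorem K5s_Eqn {n : ℕ} {f g : T} (h : Eqn n f g) : K5s n f = K5s n g := by
  simp only [K5s, MonoidHom.comp_apply, Eqn_iff.1 h]

theorem K5s1a : K5s 1 a = -1 := by
  simp only [K5s, MonoidHom.comp_apply]; decide +kernel
theorem K5s1b : K5s 1 b = 1 := by
  simp only [K5s, MonoidHom.comp_apply]; decide +kernel
theorem K5s1d : K5s 1 d = 1 := by
  simp only [K5s, MonoidHom.comp_apply]; decide +kernel
theorem K5s2a : K5s 2 a = 1 := by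
  simp only [K5s, MonoidHom.comp_apply]; decide +kernel
theorem K5s2b : K5s 2 b = -1 := by
  simp only [K5s, MonoidHom.comp_apply]; decide +kernel
theorem K5s2d : K5s 2 d = 1 := by
  simp only [K5s, MonoidHom.comp_apply]; decide +kernel
theorem K5s3a : K5s 3 a = 1 := by
  simp only [K5s, MonoidHom.comp_apply]; decide +kernel
theorem K5s3b : K5s 3 b = -1 := by
  simp only [K5s, MonoidHom.comp_apply]; decide +kernel
theorem K5s3d : K5s 3 d = -1 := by
  simp only [K5s, MonoidHom.comp_apply]; decide +kernel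
theorem K5s1c : K5s 1 c = 1 := by
  simp only [K5s, MonoidHom.comp_apply]; decide +kernel
theorem K5s2c : K5s 2 c = -1 := by
  simp only [K5s, MonoidHom.comp_apply]; decide +kernel

theorem K5_conj {f : T →* ℤˣ} (g x : T) : f (g * x * g⁻¹) = f x := by
  rw [map_mul, map_mul, map_inv, mul_comm (f g), mul_assoc, mul_inv_cancel, mul_one]

theorem K5s_t (n : ℕ) : K5s n t = 1 := by
  rw [t, map_mul, map_mul, map_mul]
  have h1 : K5s n a * K5s n a = 1 := by rw [← map_mul, aa, map_one]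
  have h2 : K5s n b * K5s n b = 1 := by rw [← map_mul, bb, map_one]
  calc K5s n a * K5s n b * K5s n a * K5s n b
      = (K5s n a * K5s n a) * (K5s n b * K5s n b) := by
        rw [mul_right_comm (K5s n a) (K5s n b) (K5s n a), mul_assoc]
    _ = 1 := by rw [h1, h2, one_mul]

theorem K5s_K (n : ℕ) : ∀ k ∈ K, K5s n k = 1 := by
  intro k hk
  rw [K] at hk
  induction hk using Subgroup.closure_induction with
  | mem x hx =>
    obtain ⟨g, -, rfl⟩ := hx
    rw [K5_conj, K5s_t]
  | one => exact map_one _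
  | mul x y _ _ hx hy => rw [map_mul, hx, hy, one_mul]
  | inv x _ hx => rw [map_inv, hx, inv_one]

/-- the character used in the last step -/
noncomputable def K5x : T →* ℤˣ := K5s 1 * K5s 2

theorem K5x_app (g : T) : K5x g = K5s 1 g * K5s 2 g := rfl

theorem K5_t_pair : t = pair (c * a) (a * c) := by
  have h1 : a * b * a = pair c a := by rw [b_eq, a_pair_a]
  rw [t, h1, b_eq, pair_mul]

theorem K5_secs : ∀ k ∈ K, ∃ u v : T, k = pair u v ∧ K5x u = 1 ∧ K5x v = 1 := by
  intro k hk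
  rw [K] at hk
  induction hk using Subgroup.closure_induction with
  | mem x hx =>
    obtain ⟨g, hg, rfl⟩ := hx
    have hu : K5x (c * a) = 1 := by
      rw [K5x_app, map_mul, map_mul, K5s1c, K5s1a, K5s2c, K5s2a]; decide
    have hv : K5x (a * c) = 1 := by
      rw [K5x_app, map_mul, map_mul, K5s1c, K5s1a, K5s2c, K5s2a]; decide
    obtain ⟨u, -, v, -, h | h⟩ := sec_Γ g hg
    · refine ⟨u * (c * a) * u⁻¹, v * (a * c) * v⁻¹, ?_, ?_, ?_⟩
      · rw [h, K5_t_pair, pair_inv, pair_mul, pair_mul]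
      · rw [K5_conj, hu]
      · rw [K5_conj, hv]
    · refine ⟨v * (a * c) * v⁻¹, u * (c * a) * u⁻¹, ?_, ?_, ?_⟩
      · rw [h, K5_t_pair, mul_inv_rev, a_inv, pair_inv]
        have e : a * pair u v * pair (c * a) (a * c) * (pair u⁻¹ v⁻¹ * a)
            = a * (pair u v * pair (c * a) (a * c) * pair u⁻¹ v⁻¹) * a := by
          simp only [mul_assoc]
        rw [e, pair_mul, pair_mul, a_pair_a]
      · rw [K5_conj, hv]
      · rw [K5_conj, hu]
  | one => exact ⟨1, 1, pair_one.symm, map_one _, map_one _⟩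
  | mul x y _ _ hx hy =>
    obtain ⟨u, v, rfl, hu, hv⟩ := hx
    obtain ⟨u', v', rfl, hu', hv'⟩ := hy
    exact ⟨u * u', v * v', pair_mul _ _ _ _, by rw [map_mul, hu, hu', one_mul],
      by rw [map_mul, hv, hv', one_mul]⟩
  | inv x _ hx =>
    obtain ⟨u, v, rfl, hu, hv⟩ := hx
    exact ⟨u⁻¹, v⁻¹, pair_inv _ _, by rw [map_inv, hu, inv_one], by rw [map_inv, hv, inv_one]⟩

/-- the elements `k (a d)^i a^j b^l` -/
def K5N (γ : T) : Prop := ∃ k ∈ K, ∃ i j l : ℕ, γ = k * ((a * d) ^ i * a ^ j * b ^ l)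

theorem K5_adm : a * d ∈ Γ := Subgroup.mul_mem _ a_mem d_mem

theorem K5_bla (l : ℕ) : ∃ k ∈ K, b ^ l * a = k * (a * b ^ l) := by
  induction l with
  | zero => exact ⟨1, Subgroup.one_mem _, by simp⟩
  | succ l ih =>
    obtain ⟨k, hk, h⟩ := ih
    have ht : b * a * b * a ∈ K := by
      have := Subgroup.inv_mem _ t_mem
      rw [t, mul_inv_rev, mul_inv_rev, mul_inv_rev, a_inv, b_inv] at this
      simpa [mul_assoc] using this
    refine ⟨(b * k * b⁻¹) * (b * a * b * a), Subgroup.mul_mem _ (NormBy_Γ_K b b_mem k hk) ht, ?_⟩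
    have ha : ∀ z : T, a * (a * z) = z := fun z => by rw [← mul_assoc, aa, one_mul]
    have hb : ∀ z : T, b * (b * z) = z := fun z => by rw [← mul_assoc, bb, one_mul]
    rw [pow_succ', mul_assoc, h]
    simp only [b_inv, mul_assoc, ha, hb]

theorem K5_bld (l : ℕ) : b ^ l * d = d * b ^ l :=
  (Commute.pow_left (show b * d = d * b by simp) l)

theorem K5N_a {γ : T} (h : K5N γ) : K5N (γ * a) := by
  obtain ⟨k, hk, i, j, l, rfl⟩ := h
  obtain ⟨k', hk', h'⟩ := K5_bla l
  have hW : (a * d) ^ i * a ^ j ∈ Γ :=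
    Subgroup.mul_mem _ (Subgroup.pow_mem _ K5_adm _) (Subgroup.pow_mem _ a_mem _)
  refine ⟨k * (((a * d) ^ i * a ^ j) * k' * ((a * d) ^ i * a ^ j)⁻¹),
    Subgroup.mul_mem _ hk (NormBy_Γ_K _ hW k' hk'), i, j + 1, l, ?_⟩
  rw [mul_assoc, mul_assoc ((a * d) ^ i * a ^ j), h', pow_succ]
  group

theorem K5N_b {γ : T} (h : K5N γ) : K5N (γ * b) := by
  obtain ⟨k, hk, i, j, l, rfl⟩ := h
  exact ⟨k, hk, i, j, l + 1, by rw [pow_succ]; simp only [mul_assoc]⟩

theorem K5_pow2 (x : T) (h : x * x = 1) (m : ℕ) : x ^ (2 * m) = 1 := by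
  rw [pow_mul, pow_two, h, one_pow]

theorem K5N_d {γ : T} (h : K5N γ) : K5N (γ * d) := by
  obtain ⟨k, hk, i, j, l, rfl⟩ := h
  have e1 : k * ((a * d) ^ i * a ^ j * b ^ l) * d = k * ((a * d) ^ i * (a ^ j * d) * b ^ l) := by
    rw [mul_assoc k, mul_assoc _ (b ^ l) d, K5_bld]
    simp only [mul_assoc]
  rcases Nat.even_or_odd' j with ⟨m, rfl | rfl⟩
  · refine ⟨k, hk, i + 3, 1, l, ?_⟩
    rw [e1, K5_pow2 a aa, one_mul, pow_add, pow_one]
    have h3 : (a * d) ^ 3 * a = d := by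
      have h4 := ad4
      rw [pow_succ] at h4
      have h5 : (a * d) ^ 3 = (a * d)⁻¹ := eq_inv_of_mul_eq_one_left h4
      rw [h5, mul_inv_rev, a_inv, d_inv, mul_assoc, aa, mul_one]
    rw [mul_assoc ((a * d) ^ i) ((a * d) ^ 3) a, h3]
  · refine ⟨k, hk, i + 1, 0, l, ?_⟩
    rw [e1, pow_succ, K5_pow2 a aa, one_mul, pow_zero, mul_one, pow_succ]

theorem K5N_all : ∀ γ ∈ Γ, K5N γ := by
  intro γ hγ
  have key : ∀ x : T, K5N x → ∀ y ∈ ({a, b, c, d} : Set T), K5N (x * y) := by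
    rintro x hx y (rfl | rfl | rfl | rfl)
    · exact K5N_a hx
    · exact K5N_b hx
    · rw [← bd, ← mul_assoc]
      exact K5N_d (K5N_b hx)
    · exact K5N_d hx
  rw [Γ] at hγ
  induction hγ using Subgroup.closure_induction_right with
  | one => exact ⟨1, Subgroup.one_mem _, 0, 0, 0, by simp⟩
  | mul_right x hx y hy h => exact key x h y hy
  | mul_inv_cancel x hx y hy h =>
    have : y⁻¹ ∈ ({a, b, c, d} : Set T) := by
      rcases hy with rfl | rfl | rfl | rfl <;> simp
    exact key x h _ this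

theorem K5_neg {n : ℕ} (h : (-1 : ℤˣ) ^ n = 1) : Even n := by
  rcases Nat.even_or_odd n with h' | h'
  · exact h'
  · rw [h'.neg_one_pow] at h
    exact absurd h (by decide)

theorem K5 : ∀ γ ∈ Γ, Eqn 3 γ 1 → γ ∈ K := by
  intro γ hγ h3
  obtain ⟨k, hk, i, j, l, rfl⟩ := K5N_all γ hγ
  have h2 := h3.mono (show 2 ≤ 3 by norm_num)
  have h1 := h3.mono (show 1 ≤ 3 by norm_num)
  have e1 := K5s_Eqn h1
  have e2 := K5s_Eqn h2
  have e3 := K5s_Eqn h3
  simp only [map_mul, map_pow, map_one, K5s_K _ k hk, K5s1a, K5s1b, K5s1d, one_mul, mul_one,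
    one_pow] at e1
  simp only [map_mul, map_pow, map_one, K5s_K _ k hk, K5s2a, K5s2b, K5s2d, one_mul, mul_one,
    one_pow] at e2
  simp only [map_mul, map_pow, map_one, K5s_K _ k hk, K5s3a, K5s3b, K5s3d, one_mul, mul_one,
    one_pow] at e3
  rw [← pow_add] at e1 e3
  have l2 := K5_neg e2
  have il := K5_neg e3
  have ij := K5_neg e1
  have i2 : Even i := by
    rcases Nat.even_or_odd i with h | h
    · exact h
    · exact absurd il (by rw [Nat.not_even_iff_odd]; exact h.add_even l2)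
  have j2 : Even j := by
    rcases Nat.even_or_odd j with h | h
    · exact h
    · exact absurd ij (by rw [Nat.not_even_iff_odd]; exact i2.add_odd h)
  obtain ⟨i', hi⟩ := i2.exists_two_nsmul
  obtain ⟨j', hj⟩ := j2.exists_two_nsmul
  obtain ⟨l', hl⟩ := l2.exists_two_nsmul
  rw [smul_eq_mul] at hi hj hl
  have ea : a ^ j = 1 := by rw [hj, K5_pow2 a aa]
  have eb : b ^ l = 1 := by rw [hl, K5_pow2 b bb]
  rw [ea, eb, mul_one, mul_one] at h3 ⊢
  rcases Nat.even_or_odd' i' with ⟨m, hm | hm⟩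
  · have : (a * d) ^ i = 1 := by
      rw [hi, hm, ← mul_assoc, pow_mul, show 2 * 2 = 4 by rfl, ad4, one_pow]
    rw [this, mul_one]; exact hk
  · exfalso
    have e : (a * d) ^ i = pair b b := by
      rw [hi, hm, mul_add, ← mul_assoc, mul_one, pow_add, pow_mul, show 2 * 2 = 4 by rfl, ad4,
        one_pow, one_mul, pow_two]
      have h1 : a * d * a = pair b 1 := by
        have := a_pair_a 1 b
        rw [← d_eq] at this; exact this
      rw [← mul_assoc, h1, d_eq, pair_mul, mul_one, one_mul]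
    obtain ⟨u, v, rfl, hu, hv⟩ := K5_secs k hk
    rw [e, pair_mul, ← pair_one] at h3
    have h4 := (Eqn_pair.1 h3).1
    have h5 := h4.mono (show 1 ≤ 2 by norm_num)
    have h6 := K5s_Eqn h4
    have h7 := K5s_Eqn h5
    have h8 : K5x (u * b) = 1 := by rw [K5x_app, h6, h7, map_one, map_one, one_mul]
    rw [map_mul, hu, one_mul, K5x_app, K5s1b, K5s2b] at h8
    exact absurd h8 (by decide)

end H8AF
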