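import Pool.Agent.Lib.H8AF.Defs

/-!
# Chunk KF1 (this file: sec_Γ, lift_Γ, t_mem, K_le_Γ, NormBy_Γ_K), KF2 (file KF2.lean) : basic facts on `Γ` and `K`

PROOF.
* `sec_Γ`: closure induction; products: `pair u v * pair u' v'`, `a * pair u v * pair u' v'`,
  `pair u v * (a * pair u' v') = a * pair (v u') (u v')`, etc. (`a_pair`); inverses similarly.
  Generators: `a = a * pair 1 1`, `b = pair a c`, `c = pair a d`, `d = pair 1 b`.
* `lift_Γ`: closure induction with the statement `∃ h ∈ Γ, pair g h ∈ Γ` :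
  `a`: `pair a c = b`; `b`: `pair b 1 = a d a`; `c`: `pair c a = a b a`; `d`: `pair d a = a c a`.
* `NormBy_Γ_K`: closure induction on `x ∈ K`.
* `K_pair`: `t = pair (c a) (a c)`; with `y = a d a = pair b 1`:
  `t * y * t⁻¹ * y⁻¹ = pair (c a b a c b) 1`, and `c a b a c b = c t c` (`c b = d`, `t c = a b a b c = a b a d`).
  So `pair (c t c) 1 ∈ K`.  The set `down K` is normalised by `Γ` (`lift_Γ`, `NormBy_Γ_K`), contains
  `c t c`, hence `t`, hence all of `K`.  `pair 1 k = a * pair k 1 * a`.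
* `ac4_mem : (a c)^4 ∈ K`: `a c = (a d) b`...  One way: in the quotient of `Γ` by `K` the elements `a`, `b`
  commute and `b` commutes with `d`, so `(a d b)^4 = (a d)^4 b^4 = 1`.  Another way: explicit product of
  conjugates of `t`, for instance `a b = t b a`, so every `b` can be moved to the right modulo `K`.
* `ad4 : (a d)^4 = 1`: `(a d)^2 = pair b 1 * pair 1 b = pair b b`.
* `adad_mem`: `(a c)^2 = pair (d a) (a d)`, `(a c)^4 = pair ((d a)^2) ((a d)^2)`, and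
  `(d a)^2 = (a d)^2` because `(a d)^4 = 1`.
-/

namespace H8AF

theorem KF1_pair_a (u v : T) : pair u v * a = a * pair v u := (a_pair v u).symm

theorem KF1_mul (x y : T)
    (hx : ∃ u ∈ Γ, ∃ v ∈ Γ, x = pair u v ∨ x = a * pair u v)
    (hy : ∃ u ∈ Γ, ∃ v ∈ Γ, y = pair u v ∨ y = a * pair u v) :
    ∃ u ∈ Γ, ∃ v ∈ Γ, x * y = pair u v ∨ x * y = a * pair u v := by
  obtain ⟨u, hu, v, hv, hx⟩ := hx
  obtain ⟨u', hu', v', hv', hy⟩ := hy
  rcases hx with rfl | rfl <;> rcases hy with rfl | rfl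
  · exact ⟨u * u', mul_mem hu hu', v * v', mul_mem hv hv', Or.inl (pair_mul _ _ _ _)⟩
  · refine ⟨v * u', mul_mem hv hu', u * v', mul_mem hu hv', Or.inr ?_⟩
    rw [← mul_assoc, KF1_pair_a, mul_assoc, pair_mul]
  · refine ⟨u * u', mul_mem hu hu', v * v', mul_mem hv hv', Or.inr ?_⟩
    rw [mul_assoc, pair_mul]
  · refine ⟨v * u', mul_mem hv hu', u * v', mul_mem hu hv', Or.inl ?_⟩
    rw [mul_assoc, ← mul_assoc (pair u v), KF1_pair_a, mul_assoc, pair_mul, ← mul_assoc, aa,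
      one_mul]

theorem sec_Γ : ∀ g ∈ Γ, ∃ u ∈ Γ, ∃ v ∈ Γ, g = pair u v ∨ g = a * pair u v := by
  intro g hg
  refine Subgroup.closure_induction (p := fun g _ => ∃ u ∈ Γ, ∃ v ∈ Γ, g = pair u v ∨ g = a * pair u v)
    ?_ ?_ ?_ ?_ hg
  · intro x hx
    simp only [Set.mem_insert_iff, Set.mem_singleton_iff] at hx
    rcases hx with rfl | rfl | rfl | rfl
    · exact ⟨1, one_mem _, 1, one_mem _, Or.inr (by simp)⟩
    · exact ⟨a, a_mem, c, c_mem, Or.inl b_eq⟩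
    · exact ⟨a, a_mem, d, d_mem, Or.inl c_eq⟩
    · exact ⟨1, one_mem _, b, b_mem, Or.inl d_eq⟩
  · exact ⟨1, one_mem _, 1, one_mem _, Or.inl (by simp)⟩
  · intro x y _ _ hx hy
    exact KF1_mul x y hx hy
  · rintro x _ ⟨u, hu, v, hv, rfl | rfl⟩
    · exact ⟨u⁻¹, inv_mem hu, v⁻¹, inv_mem hv, Or.inl (pair_inv _ _)⟩
    · refine ⟨v⁻¹, inv_mem hv, u⁻¹, inv_mem hu, Or.inr ?_⟩
      rw [mul_inv_rev, a_inv, pair_inv, KF1_pair_a]

theorem lift_Γ : ∀ g ∈ Γ, ∃ h ∈ Γ, pair g h ∈ Γ := by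
  intro g hg
  refine Subgroup.closure_induction (p := fun g _ => ∃ h ∈ Γ, pair g h ∈ Γ) ?_ ?_ ?_ ?_ hg
  · intro x hx
    simp only [Set.mem_insert_iff, Set.mem_singleton_iff] at hx
    rcases hx with rfl | rfl | rfl | rfl
    · exact ⟨c, c_mem, by rw [← b_eq]; exact b_mem⟩
    · refine ⟨1, one_mem _, ?_⟩
      rw [← a_pair_a 1 b, ← d_eq]
      exact mul_mem (mul_mem a_mem d_mem) a_mem
    · refine ⟨a, a_mem, ?_⟩
      rw [← a_pair_a a c, ← b_eq]
      exact mul_mem (mul_mem a_mem b_mem) a_mem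
    · refine ⟨a, a_mem, ?_⟩
      rw [← a_pair_a a d, ← c_eq]
      exact mul_mem (mul_mem a_mem c_mem) a_mem
  · exact ⟨1, one_mem _, by rw [pair_one]; exact one_mem _⟩
  · rintro x y _ _ ⟨h, hh, h1⟩ ⟨k, hk, h2⟩
    exact ⟨h * k, mul_mem hh hk, by rw [← pair_mul]; exact mul_mem h1 h2⟩
  · rintro x _ ⟨h, hh, h1⟩
    exact ⟨h⁻¹, inv_mem hh, by rw [← pair_inv]; exact inv_mem h1⟩

theorem t_mem : t ∈ K := by
  refine Subgroup.subset_closure ⟨1, one_mem _, ?_⟩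
  simp

theorem K_le_Γ : K ≤ Γ := by
  unfold K
  rw [Subgroup.closure_le]
  rintro x ⟨g, hg, rfl⟩
  have ht : t ∈ Γ := mul_mem (mul_mem (mul_mem a_mem b_mem) a_mem) b_mem
  exact mul_mem (mul_mem hg ht) (inv_mem hg)

theorem NormBy_Γ_K : NormBy Γ K := by
  intro g hg x hx
  refine Subgroup.closure_induction (p := fun x _ => g * x * g⁻¹ ∈ K) ?_ ?_ ?_ ?_ hx
  · rintro x ⟨h, hh, rfl⟩
    refine Subgroup.subset_closure ⟨g * h, mul_mem hg hh, ?_⟩
    group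
  · simp
  · intro x y _ _ hx hy
    have : g * (x * y) * g⁻¹ = (g * x * g⁻¹) * (g * y * g⁻¹) := by group
    rw [this]
    exact mul_mem hx hy
  · intro x _ hx
    have : g * x⁻¹ * g⁻¹ = (g * x * g⁻¹)⁻¹ := by group
    rw [this]
    exact inv_mem hx

end H8AF
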