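import Pool.Agent.Lib.H8AF.Defs

/-!
# Chunk LIM : `T` is complete, existence of `M`

PROOF.  `exists_limit`: put `F w = f |w| w`, inverse `w ↦ (f |w|)⁻¹ w` (lengths are preserved).
First show `Eqn i (f i) (f j)` for `i ≤ j` (induction on `j`, `Eqn.mono`).  Prefix: if `w <+: u` then
`f |w| w = f |u| w`, and `f |u|` preserves prefixes.

`exists_M`: `Φ y = pair (pair (pair u u) (pair u u)) (pair a (pair a y))`, `u = y * (a * y * a)`.
`Eqn k y z → Eqn (k+3) (Φ y) (Φ z)` (`Eqn.mul`, `Eqn.pair`).  `f 0 = 1`, `f (n+1) = Φ (f n)`; then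
`Eqn (3 n) (f n) (f (n+1))` by induction, so `exists_limit` applies; `F` satisfies
`Eqn (n+3) (Φ F) (Φ (f n))`, `Φ (f n) = f (n+1)`, `Eqn (n+1) F (f (n+1))`, so `F = Φ F` by
`eq_of_Eqn` (compare at level `n + 1`).  Put `M = F`, `u = M a M a`, `x = pair u u`, `s = pair x x`,
`q = pair a M`, `r = pair a q`.
-/

namespace H8AF

private theorem LIM_le (f : ℕ → T) (h : ∀ n, Eqn n (f n) (f (n + 1))) :
    ∀ i j, i ≤ j → Eqn i (f i) (f j) := by
  intro i j hij
  induction j, hij using Nat.le_induction with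
  | base => exact Eqn.rfl
  | succ j hij ih => exact ih.trans ((h j).mono hij)

theorem exists_limit (f : ℕ → T) (h : ∀ n, Eqn n (f n) (f (n + 1))) :
    ∃ F : T, ∀ n, Eqn n F (f n) := by
  refine ⟨⟨⟨fun w => f w.length w, fun w => (f w.length)⁻¹ w, fun w => ?_, fun w => ?_⟩,
    fun w => ?_, fun w u hwu => ?_⟩, fun n w hw => ?_⟩
  · simp only [len, inv_app_self]
  · simp only [len, app_inv_self]
  · exact len (f w.length) w
  · change f w.length w <+: f u.length u
    rw [LIM_le f h w.length u.length hwu.length_le w rfl]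
    exact pre _ hwu
  · subst hw
    rfl

/-- the system of recursions that defines `M` -/
structure Sys (M r q s x : T) : Prop where
  hM : M = pair s r
  hr : r = pair a q
  hq : q = pair a M
  hs : s = pair x x
  hx : x = pair (M * (a * M * a)) (M * (a * M * a))

theorem exists_M : ∃ M r q s x : T, Sys M r q s x := by
  let Φ : T → T := fun y => pair (pair (pair (y * (a * y * a)) (y * (a * y * a)))
    (pair (y * (a * y * a)) (y * (a * y * a)))) (pair a (pair a y))
  have hΦ : ∀ k y z, Eqn k y z → Eqn (k + 3) (Φ y) (Φ z) := by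
    intro k y z h
    have hu : Eqn k (y * (a * y * a)) (z * (a * z * a)) := h.mul ((Eqn.rfl.mul h).mul Eqn.rfl)
    have h1 : Eqn (k + 3) (Φ y) (Φ z) :=
      Eqn.pair (Eqn.pair (hu.pair hu) (hu.pair hu)) (Eqn.pair Eqn.rfl (Eqn.pair Eqn.rfl h))
    exact h1
  let f : ℕ → T := fun n => Φ^[n] 1
  have hf : ∀ n, f (n + 1) = Φ (f n) := fun n => Function.iterate_succ_apply' Φ n 1
  have h3 : ∀ n, Eqn (3 * n) (f n) (f (n + 1)) := by
    intro n
    induction n with
    | zero => exact Eqn_zero _ _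
    | succ n ih =>
      have := hΦ _ _ _ ih
      rw [← hf, ← hf] at this
      exact this
  obtain ⟨F, hF⟩ := exists_limit f (fun n => (h3 n).mono (by omega))
  have hfix : F = Φ F := by
    apply eq_of_Eqn
    intro n
    have h1 : Eqn (n + 3) (Φ F) (Φ (f n)) := hΦ _ _ _ (hF n)
    rw [← hf] at h1
    have h2 : Eqn n F (f (n + 1)) := (hF (n + 1)).mono (by omega)
    exact h2.trans (h1.mono (by omega)).symm
  exact ⟨F, pair a (pair a F), pair a F,
    pair (pair (F * (a * F * a)) (F * (a * F * a))) (pair (F * (a * F * a)) (F * (a * F * a))),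
    pair (F * (a * F * a)) (F * (a * F * a)), ⟨hfix, rfl, rfl, rfl, rfl⟩⟩

end H8AF
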