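import Pool.Agent.Lib.H8AF.Lim

/-!
# Chunk REL1 (this file: comm_Mm, comm_Mb, M_sq), chunk REL2 (file Rel2.lean: x_eq, s_eq, odd) : the relations satisfied by `M`

PROOF (everything by `eq_of_Eqn` and induction on the level; `m = a * M * a`, `u = M * m`).
* `comm_Mm`: `P n : Eqn n (M m) (m M) ∧ Eqn n (s r) (r s) ∧ Eqn n (x q) (q x)`.
  `m = pair r s`, so `M m = pair (s r) (r s)`, `m M = pair (r s) (s r)`; `s r = pair (x a) (x q)`,
  `r s = pair (a x) (q x)` and `x a = a x` because `x = pair u u` (`a_pair_a`);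
  `x q = pair (u a) (u M)`, `q x = pair (a u) (M u)`; `u a = M a M`, `a u = m M a`, so from
  `Eqn n (M m) (m M)` (multiply by `a`): `Eqn n (u a) (a u)`; `u M = M m M`, `M u = M M m`.
* `comm_Mb`: `P n : Eqn n (M b) (b M) ∧ Eqn n (r c) (c r) ∧ Eqn n (q d) (d q)`.
  `M b = pair (s a) (r c)`, `b M = pair (a s) (c r)`, `s a = a s`; `r c = pair (a a) (q d)`,
  `c r = pair (a a) (d q)`; `q d = pair (a 1) (M b)`, `d q = pair (1 a) (b M)`.
* `M_sq` and the others: `P n : Eqn n (M M) 1 ∧ Eqn n (r r) 1 ∧ Eqn n (q q) 1 ∧ Eqn n (s s) 1 ∧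
  Eqn n (x x) 1`; `x x = pair (u u) (u u)`, `u u = M m M m = M M m m = (M M) a (M M) a` (by `comm_Mm`).
* `odd`: `P n : Eqn n M (c (m b)^7 m) ∧ Eqn n r (d (s c)^7 s) ∧ Eqn n q (b (x d)^7 x)`.
  `c (m b)^7 m = pair (a (r a)^7 r) (d (s c)^7 s)`, and `a (r a)^7 r = (a r)^8 = s` EXACTLY (see `s_eq`).
  `d (s c)^7 s = pair (1 (x a)^7 x) (b (x d)^7 x)`, and `(x a)^7 x = a` exactly (`x a = a x`,
  `x x = 1`, `a a = 1`).
  `b (x d)^7 x = pair (a (u 1)^7 u) (c (u b)^7 u)`, `u u = 1`; `u b = M m b`,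
  and in any group: `M M = 1`, `M m = m M`, `M b = b M` give `(M m b)^7 (M m) = (m b)^7 m`.
  (`c (u b)^7 u = c (m b)^7 m`, this closes the cycle.)
* `s_eq`: `(a r)^2 = pair (q a) (a q)`; `(q a)^2 = pair (a M) (M a)`, `(q a)^4 = pair (a M a M) (M a M a)`
  `= pair (m M) (M m) = x`; `(a q)^2 = pair (M a) (a M)`, `(a q)^4 = pair (M a M a) (a M a M) = x`.
-/

namespace H8AF

variable {M r q s x : T}

theorem REL1_m (h : Sys M r q s x) : a * M * a = pair r s := by
  rw [h.hM, a_pair_a]

theorem REL1_xa (h : Sys M r q s x) : x * a = a * x := by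
  rw [h.hx, a_pair]

theorem REL1_sa (h : Sys M r q s x) : s * a = a * s := by
  rw [h.hs, a_pair]

theorem comm_Mm (h : Sys M r q s x) : M * (a * M * a) = (a * M * a) * M := by
  have key : ∀ n, Eqn n (M * (a * M * a)) ((a * M * a) * M) ∧ Eqn n (s * r) (r * s) ∧
      Eqn n (x * q) (q * x) := by
    intro n
    induction n with
    | zero => exact ⟨Eqn_zero _ _, Eqn_zero _ _, Eqn_zero _ _⟩
    | succ n ih =>
      obtain ⟨h1, h2, h3⟩ := ih
      refine ⟨?_, ?_, ?_⟩
      · have e1 : M * (a * M * a) = pair (s * r) (r * s) := by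
          rw [REL1_m h, h.hM, pair_mul]
        have e2 : (a * M * a) * M = pair (r * s) (s * r) := by
          rw [REL1_m h, h.hM, pair_mul]
        rw [e1, e2]
        exact h2.pair h2.symm
      · have e1 : s * r = pair (x * a) (x * q) := by rw [h.hs, h.hr, pair_mul]
        have e2 : r * s = pair (a * x) (q * x) := by rw [h.hs, h.hr, pair_mul]
        rw [e1, e2, REL1_xa h]
        exact Eqn.rfl.pair h3
      · have e1 : x * q = pair ((M * (a * M * a)) * a) ((M * (a * M * a)) * M) := by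
          rw [h.hq]; nth_rw 1 [h.hx]; rw [pair_mul]
        have e2 : q * x = pair (a * (M * (a * M * a))) (M * (M * (a * M * a))) := by
          rw [h.hq]; nth_rw 1 [h.hx]; rw [pair_mul]
        rw [e1, e2]
        refine Eqn.pair ?_ ?_
        · have := h1.mul (Eqn.rfl (f := a))
          refine this.trans (Eqn.of_eq ?_)
          simp only [mul_assoc]
        · have := (Eqn.rfl (f := M)).mul h1.symm
          refine (Eqn.of_eq ?_).trans this
          simp only [mul_assoc]
  exact eq_of_Eqn fun n => (key n).1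

theorem comm_Mb (h : Sys M r q s x) : M * b = b * M := by
  have key : ∀ n, Eqn n (M * b) (b * M) ∧ Eqn n (r * c) (c * r) ∧ Eqn n (q * d) (d * q) := by
    intro n
    induction n with
    | zero => exact ⟨Eqn_zero _ _, Eqn_zero _ _, Eqn_zero _ _⟩
    | succ n ih =>
      obtain ⟨h1, h2, h3⟩ := ih
      refine ⟨?_, ?_, ?_⟩
      · have e1 : M * b = pair (s * a) (r * c) := by rw [h.hM, b_eq, pair_mul]
        have e2 : b * M = pair (a * s) (c * r) := by rw [h.hM, b_eq, pair_mul]
        rw [e1, e2, REL1_sa h]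
        exact Eqn.rfl.pair h2
      · have e1 : r * c = pair (a * a) (q * d) := by rw [h.hr, c_eq, pair_mul]
        have e2 : c * r = pair (a * a) (d * q) := by rw [h.hr, c_eq, pair_mul]
        rw [e1, e2]
        exact Eqn.rfl.pair h3
      · have e1 : q * d = pair (a * 1) (M * b) := by rw [h.hq, d_eq, pair_mul]
        have e2 : d * q = pair (1 * a) (b * M) := by rw [h.hq, d_eq, pair_mul]
        rw [e1, e2, mul_one, one_mul]
        exact Eqn.rfl.pair h1
  exact eq_of_Eqn fun n => (key n).1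

theorem REL1_uu (h : Sys M r q s x) :
    (M * (a * M * a)) * (M * (a * M * a)) = (M * M) * (a * (M * M) * a) := by
  have e := comm_Mm h
  calc (M * (a * M * a)) * (M * (a * M * a))
      = M * ((a * M * a) * M) * (a * M * a) := by simp only [mul_assoc]
    _ = M * (M * (a * M * a)) * (a * M * a) := by rw [e]
    _ = (M * M) * (a * M * (a * a) * M * a) := by simp only [mul_assoc]
    _ = (M * M) * (a * (M * M) * a) := by rw [aa]; simp only [mul_assoc, one_mul, mul_one]

theorem REL1_sq (h : Sys M r q s x) :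
    M * M = 1 ∧ r * r = 1 ∧ q * q = 1 ∧ s * s = 1 ∧ x * x = 1 := by
  have key : ∀ n, Eqn n (M * M) 1 ∧ Eqn n (r * r) 1 ∧ Eqn n (q * q) 1 ∧ Eqn n (s * s) 1 ∧
      Eqn n (x * x) 1 := by
    intro n
    induction n with
    | zero => exact ⟨Eqn_zero _ _, Eqn_zero _ _, Eqn_zero _ _, Eqn_zero _ _, Eqn_zero _ _⟩
    | succ n ih =>
      obtain ⟨h1, h2, h3, h4, h5⟩ := ih
      have p1 : (1 : T) = pair 1 1 := pair_one.symm
      refine ⟨?_, ?_, ?_, ?_, ?_⟩
      · have e1 : M * M = pair (s * s) (r * r) := by rw [h.hM, pair_mul]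
        rw [e1, p1]; exact h4.pair h2
      · have e1 : r * r = pair (a * a) (q * q) := by rw [h.hr, pair_mul]
        rw [e1, p1, aa]; exact Eqn.rfl.pair h3
      · have e1 : q * q = pair (a * a) (M * M) := by rw [h.hq, pair_mul]
        rw [e1, p1, aa]; exact Eqn.rfl.pair h1
      · have e1 : s * s = pair (x * x) (x * x) := by rw [h.hs, pair_mul]
        rw [e1, p1]; exact h5.pair h5
      · have e1 : x * x = pair ((M * M) * (a * (M * M) * a)) ((M * M) * (a * (M * M) * a)) := by
          nth_rw 1 [h.hx]; nth_rw 1 [h.hx]; rw [pair_mul, REL1_uu h]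
        have e2 : Eqn n ((M * M) * (a * (M * M) * a)) 1 := by
          have := h1.mul (((Eqn.rfl (f := a)).mul h1).mul (Eqn.rfl (f := a)))
          simpa using this
        rw [e1, p1]; exact e2.pair e2
  exact ⟨eq_of_Eqn fun n => (key n).1, eq_of_Eqn fun n => (key n).2.1,
    eq_of_Eqn fun n => (key n).2.2.1, eq_of_Eqn fun n => (key n).2.2.2.1,
    eq_of_Eqn fun n => (key n).2.2.2.2⟩

theorem M_sq (h : Sys M r q s x) : M * M = 1 := (REL1_sq h).1

end H8AF
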