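import Pool.Agent.Lib.H8AF.Rel1

/-!
# Chunk REL2 (this file: x_eq, s_eq, odd) : the relations satisfied by `M`

PROOF (everything by `eq_of_Eqn` and induction on the level; `m = a * M * a`, `u = M * m`).
* `comm_Mm`: `P n : Eqn n (M m) (m M) ∧ Eqn n (s r) (r s) ∧ Eqn n (x q) (q x)`.
  `m = pair r s`, so `M m = pair (s r) (r s)`, `m M = pair (r s) (s r)`; `s r = pair (x a) (x q)`,
  `r s = pair (a x) (q x)` and `x a = a x` because `x = pair u u` (`a_pair_a`);
  `x q = pair (u a) (u M)`, `q x = pair (a u) (M u)`; `u a = M a M`, `a u = m M a`, so from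
  `Eqn n (M m) (m M)` (multiply by `a`): `Eqn n (u a) (a u)`; `u M = M m M`, `M u = M M m`.
* `comm_Mb`: `P n : Eqn n (M b) (b M) ∧ Eqn n (r c) (c r) ∧ Eqn n (q d) (d q)`.
  `M b = pair (s a) (r c)`, `b M = pair (a s) (c r)`, `s a = a s`; `r c = pair (a a) (q d)`,
  `c r = pair (a a) (d q)`; `q d = pair (a 1) (M b)`, `d q = pair (1 a) (b M)`.
* `M_sq` and the others: `P n : Eqn n (M M) 1 ∧ Eqn n (r r) 1 ∧ Eqn n (q q) 1 ∧ Eqn n (s s) 1 ∧
  Eqn n (x x) 1`; `x x = pair (u u) (u u)`, `u u = M m M m = M M m m = (M M) a (M M) a` (by `comm_Mm`).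
* `odd`: `P n : Eqn n M (c (m b)^7 m) ∧ Eqn n r (d (s c)^7 s) ∧ Eqn n q (b (x d)^7 x)`.
  `c (m b)^7 m = pair (a (r a)^7 r) (d (s c)^7 s)`, and `a (r a)^7 r = (a r)^8 = s` EXACTLY (see `s_eq`).
  `d (s c)^7 s = pair (1 (x a)^7 x) (b (x d)^7 x)`, and `(x a)^7 x = a` exactly (`x a = a x`,
  `x x = 1`, `a a = 1`).
  `b (x d)^7 x = pair (a (u 1)^7 u) (c (u b)^7 u)`, `u u = 1`; `u b = M m b`,
  and in any group: `M M = 1`, `M m = m M`, `M b = b M` give `(M m b)^7 (M m) = (m b)^7 m`.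
  (`c (u b)^7 u = c (m b)^7 m`, this closes the cycle.)
* `s_eq`: `(a r)^2 = pair (q a) (a q)`; `(q a)^2 = pair (a M) (M a)`, `(q a)^4 = pair (a M a M) (M a M a)`
  `= pair (m M) (M m) = x`; `(a q)^2 = pair (M a) (a M)`, `(a q)^4 = pair (M a M a) (a M a M) = x`.
-/

namespace H8AF

variable {M r q s x : T}

theorem x_eq (h : Sys M r q s x) : x = (a * q) ^ 4 := by
  have e1 : a * q * a = pair M a := by rw [h.hq, a_pair_a]
  have e2 : (a * q) ^ 2 = pair (M * a) (a * M) := by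
    calc (a * q) ^ 2 = (a * q * a) * q := by rw [pow_two]; simp only [mul_assoc]
      _ = pair M a * pair a M := by rw [e1]; nth_rw 1 [h.hq]
      _ = _ := pair_mul _ _ _ _
  have e3 : (a * q) ^ 4 = pair ((M * a) * (M * a)) ((a * M) * (a * M)) := by
    rw [show (4 : ℕ) = 2 + 2 from rfl, pow_add, e2, pair_mul]
  rw [e3, h.hx]
  have e5 : M * (a * M * a) = (M * a) * (M * a) := by simp only [mul_assoc]
  have e6 : M * (a * M * a) = (a * M) * (a * M) := by rw [comm_Mm h]; simp only [mul_assoc]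
  rw [← e5, ← e6]

theorem s_eq (h : Sys M r q s x) : s = (a * r) ^ 8 := by
  have e1 : a * r * a = pair q a := by rw [h.hr, a_pair_a]
  have e2 : (a * r) ^ 2 = pair (q * a) (a * q) := by
    calc (a * r) ^ 2 = (a * r * a) * r := by rw [pow_two]; simp only [mul_assoc]
      _ = pair q a * pair a q := by rw [e1]; nth_rw 1 [h.hr]
      _ = _ := pair_mul _ _ _ _
  have e3 : (q * a) ^ 4 = x := by
    have e4 : q * a = a * (a * q) * a⁻¹ := by
      rw [a_inv, ← mul_assoc, aa, one_mul]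
    rw [e4, conj_pow, ← x_eq h, a_inv, ← REL1_xa h, mul_assoc, aa, mul_one]
  rw [show (8 : ℕ) = 2 * 4 from rfl, pow_mul, e2, pair_pow, e3, ← x_eq h, h.hs]

theorem REL2_pow (y z : T) (n : ℕ) : y * (z * y) ^ n * z = (y * z) ^ (n + 1) := by
  induction n with
  | zero => simp
  | succ n ih =>
    rw [pow_succ (z * y), pow_succ (y * z) (n + 1), ← ih]
    simp only [mul_assoc]

theorem REL2_p7 {G : Type*} [Group G] {y : G} (h : y * y = 1) : y ^ 7 = y := by
  rw [show (7 : ℕ) = 2 * 3 + 1 from rfl, pow_succ, pow_mul, pow_two, h, one_pow, one_mul]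

theorem REL2_grp {G : Type*} [Group G] {M m b : G} (h1 : M * M = 1) (h2 : M * m = m * M)
    (h3 : M * b = b * M) : ((M * m) * b) ^ 7 * (M * m) = (m * b) ^ 7 * m := by
  have hc : Commute M (m * b) := by
    change M * (m * b) = (m * b) * M
    rw [← mul_assoc, h2, mul_assoc, h3, mul_assoc]
  have e1 : ((M * m) * b) ^ 7 = M * (m * b) ^ 7 := by
    rw [mul_assoc, hc.mul_pow]
    rw [REL2_p7 h1]
  have hc2 : M * (m * b) ^ 7 = (m * b) ^ 7 * M := (hc.pow_right 7).eq
  rw [e1, hc2, mul_assoc, ← mul_assoc M M m, h1, one_mul]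

theorem odd (h : Sys M r q s x) :
    M = c * ((a * M * a) * b) ^ 7 * (a * M * a) := by
  have hm := REL1_m h
  obtain ⟨hM2, hr2, hq2, hs2, hx2⟩ := REL1_sq h
  have huu : (M * (a * M * a)) * (M * (a * M * a)) = 1 := by
    rw [REL1_uu h, hM2]; simp
  have key : ∀ n, Eqn n M (c * ((a * M * a) * b) ^ 7 * (a * M * a)) ∧
      Eqn n r (d * (s * c) ^ 7 * s) ∧ Eqn n q (b * (x * d) ^ 7 * x) := by
    intro n
    induction n with
    | zero => exact ⟨Eqn_zero _ _, Eqn_zero _ _, Eqn_zero _ _⟩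
    | succ n ih =>
      obtain ⟨h1, h2, h3⟩ := ih
      refine ⟨?_, ?_, ?_⟩
      · have e1 : c * ((a * M * a) * b) ^ 7 * (a * M * a) =
            pair (a * (r * a) ^ 7 * r) (d * (s * c) ^ 7 * s) := by
          rw [hm, b_eq, pair_mul, pair_pow]
          nth_rw 1 [c_eq]
          rw [pair_mul, pair_mul]
        rw [e1, REL2_pow, ← s_eq h]
        nth_rw 1 [h.hM]
        exact Eqn.rfl.pair h2
      · have e1 : d * (s * c) ^ 7 * s = pair (1 * (x * a) ^ 7 * x) (b * (x * d) ^ 7 * x) := by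
          rw [h.hs, c_eq, pair_mul, pair_pow]
          nth_rw 1 [d_eq]
          rw [pair_mul, pair_mul]
        have e2 : 1 * (x * a) ^ 7 * x = a := by
          have hc : Commute x a := REL1_xa h
          rw [one_mul, hc.mul_pow, mul_assoc, (hc.pow_right 7).eq.symm, ← mul_assoc]
          rw [REL2_p7 hx2, hx2, REL2_p7 aa, one_mul]
        rw [e1, e2]
        nth_rw 1 [h.hr]
        exact Eqn.rfl.pair h3
      · have e1 : b * (x * d) ^ 7 * x = pair (a * ((M * (a * M * a)) * 1) ^ 7 * (M * (a * M * a)))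
            (c * ((M * (a * M * a)) * b) ^ 7 * (M * (a * M * a))) := by
          rw [d_eq, h.hx, pair_mul, pair_pow]
          nth_rw 1 [b_eq]
          rw [pair_mul, pair_mul]
        have e2 : a * ((M * (a * M * a)) * 1) ^ 7 * (M * (a * M * a)) = a := by
          set u := M * (a * M * a)
          rw [mul_one, REL2_p7 huu, mul_assoc, huu, mul_one]
        have e4 : c * ((M * (a * M * a)) * b) ^ 7 * (M * (a * M * a)) =
            c * ((a * M * a) * b) ^ 7 * (a * M * a) := by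
          rw [mul_assoc, REL2_grp hM2 (comm_Mm h) (comm_Mb h), ← mul_assoc]
        rw [e1, e2, e4]
        nth_rw 1 [h.hq]
        exact Eqn.rfl.pair h1
  exact eq_of_Eqn fun n => (key n).1

end H8AF
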