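import Mathlib

/-!
# MP_af9c8b_al : the definitions used in the statement

Vertices of the rooted binary tree are the words `List Bool` (`false` is the letter `0`, `true` is the
letter `1`).
-/

namespace H8AF

open Equiv

/-- the map of `a` : change the first letter -/
def aF : List Bool → List Bool
  | [] => []
  | x :: w => (!x) :: w

mutual
/-- the map of `b` : `b(0w) = 0 a(w)`, `b(1w) = 1 c(w)` -/
def bF : List Bool → List Bool
  | [] => []
  | false :: w => false :: aF w
  | true :: w => true :: cF w
/-- the map of `c` : `c(0w) = 0 a(w)`, `c(1w) = 1 d(w)` -/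
def cF : List Bool → List Bool
  | [] => []
  | false :: w => false :: aF w
  | true :: w => true :: dF w
/-- the map of `d` : `d(0w) = 0 w`, `d(1w) = 1 b(w)` -/
def dF : List Bool → List Bool
  | [] => []
  | false :: w => false :: w
  | true :: w => true :: bF w
end

theorem aF_inv (w : List Bool) : aF (aF w) = w := by
  cases w <;> simp [aF]

theorem bcdF_inv (w : List Bool) : bF (bF w) = w ∧ cF (cF w) = w ∧ dF (dF w) = w := by
  induction w with
  | nil => simp [bF, cF, dF]
  | cons x w ih =>
    obtain ⟨h1, h2, h3⟩ := ih
    cases x <;> simp [bF, cF, dF, aF_inv, h1, h2, h3]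

/-- the generators as permutations of the set of vertices -/
def pa : Perm (List Bool) := ⟨aF, aF, aF_inv, aF_inv⟩
def pb : Perm (List Bool) := ⟨bF, bF, fun w => (bcdF_inv w).1, fun w => (bcdF_inv w).1⟩
def pc : Perm (List Bool) := ⟨cF, cF, fun w => (bcdF_inv w).2.1, fun w => (bcdF_inv w).2.1⟩
def pd : Perm (List Bool) := ⟨dF, dF, fun w => (bcdF_inv w).2.2, fun w => (bcdF_inv w).2.2⟩

/-- the first Grigorchuk group as a group of permutations of the vertices -/
def Gam : Subgroup (Perm (List Bool)) := Subgroup.closure {pa, pb, pc, pd}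

/-- the profinite completion of `G` -/
noncomputable abbrev Comp (G : Type) [Group G] :=
  ProfiniteGrp.ProfiniteCompletion.completion (GrpCat.of G)

/-- the canonical map -/
def eta {G : Type} [Group G] (γ : G) : Comp G :=
  ProfiniteGrp.ProfiniteCompletion.etaFn (GrpCat.of G) γ

/-- the congruence subgroup property of a subgroup `Δ` of a profinite group `G`: every normal subgroup
of finite index of `Δ` is `M ∩ Δ` with `M` open and normal in `G` -/
def HasCSP {G : Type} [Group G] [TopologicalSpace G] (Δ : Subgroup G) : Prop :=
  ∀ N : Subgroup Δ, N.Normal → N.FiniteIndex →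
    ∃ M : Subgroup G, M.Normal ∧ IsOpen (M : Set G) ∧ N = M.subgroupOf Δ

end H8AF
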